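import Pool.Agent.K4H55.BD.Nrm

/-!
The two-descent.
-/

set_option autoImplicit false

namespace Pool.Agent.K4H55.BD

open NumberField IsDedekindDomain WeierstrassCurve WithZero
open scoped TensorProduct

variable {K : Type} [Field K] [NumberField K] {L : Type} [Field L] [NumberField L] [Algebra K L]

/-- the class of `α` is locally at `v` the image of a point of `y² = x³ + a x + b` -/
def LocIm (a b : 𝓞 K) (θ : L) (v : HeightOneSpectrum (𝓞 K)) (α : L) : Prop :=
  IsSquare ((1 : v.adicCompletion K) ⊗ₜ[K] α) ∨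
  ∃ x y : v.adicCompletion K, y ≠ 0 ∧
    y ^ 2 = x ^ 3 + algebraMap K (v.adicCompletion K) a * x + algebraMap K (v.adicCompletion K) b ∧
    IsSquare (((1 : v.adicCompletion K) ⊗ₜ[K] α) * (x ⊗ₜ[K] (1 : L) - 1 ⊗ₜ[K] θ))

/-- the `2`-Selmer group is trivial -/
def SelTriv (a b : 𝓞 K) (θ : L) : Prop :=
  ∀ α : L, α ≠ 0 → IsSquare (Algebra.norm K α) →
    (∀ w : HeightOneSpectrum (𝓞 L), algebraMap (𝓞 K) (𝓞 L) (2 * (4 * a ^ 3 + 27 * b ^ 2)) ∉ w.asIdeal →
      IsSquare (w.valuation L α)) →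
    (∀ v : HeightOneSpectrum (𝓞 K), 2 * (4 * a ^ 3 + 27 * b ^ 2) ∈ v.asIdeal → LocIm a b θ v α) →
    IsSquare α

lemma theta_int {a b : 𝓞 K} {θ : L}
    (hθ : θ ^ 3 + algebraMap K L a * θ + algebraMap K L b = 0) : ∃ t : 𝓞 L, (t : L) = θ := by
  have h1 : IsIntegral (𝓞 K) θ := by
    refine ⟨Polynomial.X ^ 3 + Polynomial.C a * Polynomial.X + Polynomial.C b, ?_, ?_⟩
    · monicity!
    · simp only [Polynomial.eval₂_add, Polynomial.eval₂_mul, Polynomial.eval₂_pow,
        Polynomial.eval₂_X, Polynomial.eval₂_C]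
      exact hθ
  have h2 : IsIntegral ℤ θ := isIntegral_trans θ h1
  exact ⟨⟨θ, h2⟩, rfl⟩

/-- the place below -/
def low (w : HeightOneSpectrum (𝓞 L)) : HeightOneSpectrum (𝓞 K) where
  asIdeal := w.asIdeal.under (𝓞 K)
  isPrime := inferInstance
  ne_bot := by
    have h : Algebra.IsIntegral (𝓞 K) (𝓞 L) := inferInstance
    exact Ideal.IsIntegral.comap_ne_bot (𝓞 K) w.ne_bot

instance (w : HeightOneSpectrum (𝓞 L)) : w.asIdeal.LiesOver (low (K := K) w).asIdeal := ⟨rfl⟩

lemma mem_low {w : HeightOneSpectrum (𝓞 L)} {x : 𝓞 K} :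
    x ∈ (low (K := K) w).asIdeal ↔ algebraMap (𝓞 K) (𝓞 L) x ∈ w.asIdeal := Iff.rfl

lemma root_low {a b : 𝓞 K} {v : HeightOneSpectrum (𝓞 K)}
    (h : ∀ X : 𝓞 K, X ^ 3 + a * X + b ∉ v.asIdeal) {t : K} (ht : v.valuation K t ≤ 1) :
    v.valuation K (t ^ 3 + a * t + b) = 1 := by
  obtain ⟨X, hX⟩ := v.exists_valuation_sub_lt_of_integer ht 1
  rw [Units.val_one] at hX
  have h1 : v.valuation K ((X ^ 3 + a * X + b : 𝓞 K) : K) = 1 :=
    (HeightOneSpectrum.valuation_eq_one_iff_notMem v).2 (h X)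
  have hXi : v.valuation K (algebraMap (𝓞 K) K X) ≤ 1 := v.valuation_le_one X
  have hai : v.valuation K (algebraMap (𝓞 K) K a) ≤ 1 := v.valuation_le_one a
  have e : t ^ 3 + (a : K) * t + b = ((X ^ 3 + a * X + b : 𝓞 K) : K) -
      (algebraMap (𝓞 K) K X - t) * (algebraMap (𝓞 K) K X ^ 2 + algebraMap (𝓞 K) K X * t + t ^ 2 +
        algebraMap (𝓞 K) K a) := by
    simp only [map_add, map_mul, map_pow]
    ring
  have h2 : v.valuation K (algebraMap (𝓞 K) K X ^ 2 + algebraMap (𝓞 K) K X * t + t ^ 2 +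
        algebraMap (𝓞 K) K a) ≤ 1 := by
    refine (v.valuation K).map_add_le ((v.valuation K).map_add_le ((v.valuation K).map_add_le ?_ ?_)
      ?_) hai
    · rw [map_pow]
      exact pow_le_one' hXi 2
    · rw [map_mul]
      exact mul_le_one' hXi ht
    · rw [map_pow]
      exact pow_le_one' ht 2
  have h3 : v.valuation K ((algebraMap (𝓞 K) K X - t) * (algebraMap (𝓞 K) K X ^ 2 +
      algebraMap (𝓞 K) K X * t + t ^ 2 + algebraMap (𝓞 K) K a)) < 1 := by
    rw [map_mul]
    exact mul_lt_one_of_lt_of_le hX h2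
  rw [e, Valuation.map_sub_eq_of_lt_left _ (by rw [h1]; exact h3), h1]

/-- parity of the orders -/
theorem val_sq {a b : 𝓞 K} {θ : L} (hθ : θ ^ 3 + algebraMap K L a * θ + algebraMap K L b = 0)
    {D : 𝓞 K} (hD : D ≠ 0)
    (hD2 : ∀ v : HeightOneSpectrum (𝓞 K), 2 * (4 * a ^ 3 + 27 * b ^ 2) ∉ v.asIdeal →
      D ∈ v.asIdeal → v.valuation K (D : K) = exp (-1 : ℤ) ∧
        ∀ X : 𝓞 K, X ^ 3 + a * X + b ∉ v.asIdeal)
    {t y : K} (hy : y ^ 2 = (D : K) ^ 3 * (t ^ 3 + a * t + b))
    (w : HeightOneSpectrum (𝓞 L))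
    (hw : algebraMap (𝓞 K) (𝓞 L) (2 * (4 * a ^ 3 + 27 * b ^ 2)) ∉ w.asIdeal) :
    IsSquare (w.valuation L (algebraMap K L D * (algebraMap K L t - θ))) := by
  set V := w.valuation L with hV
  set T := algebraMap K L t with hT
  set DD := algebraMap K L D with hDD
  set A := algebraMap K L a with hA
  set B := algebraMap K L b with hB
  have hint : ∀ x : 𝓞 L, V (algebraMap (𝓞 L) L x) ≤ 1 := fun x => w.valuation_le_one x
  have hA1 : V A ≤ 1 := hint (algebraMap (𝓞 K) (𝓞 L) a)
  have hD1 : V DD ≤ 1 := hint (algebraMap (𝓞 K) (𝓞 L) D)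
  obtain ⟨t0, ht0⟩ := theta_int hθ
  have hθ1 : V θ ≤ 1 := by
    rw [← ht0]
    exact hint t0
  have hDD0 : DD ≠ 0 := (map_ne_zero _).2 (fun h => hD (RingOfIntegers.ext h))
  have hVD0 : V DD ≠ 0 := (Valuation.ne_zero_iff _).2 hDD0
  have hy1 : algebraMap K L y ^ 2 = DD ^ 3 * ((T - θ) * (T ^ 2 + T * θ + θ ^ 2 + A)) := by
    have h1 := congrArg (algebraMap K L) hy
    simp only [map_add, map_mul, map_pow] at h1
    rw [h1]
    linear_combination (DD ^ 3) * hθ
  have hy2 : V (algebraMap K L y) ^ 2 = V DD ^ 3 * (V (T - θ) * V (T ^ 2 + T * θ + θ ^ 2 + A)) := by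
    rw [← map_pow, hy1, map_mul, map_mul, map_pow]
  rcases le_or_gt (V T) 1 with hT1 | hT1
  · by_cases hDw : algebraMap (𝓞 K) (𝓞 L) D ∈ w.asIdeal
    · exfalso
      obtain ⟨h1, h2⟩ := hD2 (low w) hw hDw
      have h3 : (low (K := K) w).valuation K t ≤ 1 := by
        have h4 := HeightOneSpectrum.valuation_liesOver L (low (K := K) w) w t
        have h5 : (low (K := K) w).valuation K t ^
            (low (K := K) w).asIdeal.ramificationIdx' w.asIdeal ≤ 1 := by
          rw [h4]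
          exact hT1
        exact (pow_le_one_iff (Ideal.IsDedekindDomain.ramificationIdx'_ne_zero_of_liesOver w.asIdeal
          (low (K := K) w).ne_bot)).1 h5
      have h6 := root_low h2 h3
      have h7 := congrArg ((low (K := K) w).valuation K) hy
      rw [map_mul, map_pow, map_pow, h6, h1, mul_one] at h7
      have h8 : (low (K := K) w).valuation K y ≠ 0 := by
        intro h9
        rw [h9, zero_pow two_ne_zero] at h7
        exact pow_ne_zero 3 exp_ne_zero h7.symm
      obtain ⟨k, hk⟩ : ∃ k : ℤ, (low (K := K) w).valuation K y = exp k :=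
        ⟨log ((low (K := K) w).valuation K y), (exp_log h8).symm⟩
      rw [hk, ← exp_nsmul, ← exp_nsmul, exp_inj] at h7
      simp only [nsmul_eq_mul] at h7
      push_cast at h7
      omega
    · have hVD : V DD = 1 :=
        (HeightOneSpectrum.valuation_eq_one_iff_notMem (K := L) w).2 hDw
      have hle : V (T - θ) ≤ 1 := V.map_sub_le hT1 hθ1
      rcases eq_or_lt_of_le hle with h1 | h1
      · rw [map_mul, hVD, h1, one_mul]
        exact ⟨1, by simp⟩
      · have hg : V (T ^ 2 + T * θ + θ ^ 2 + A) = 1 := by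
          have hgle : V (T ^ 2 + T * θ + θ ^ 2 + A) ≤ 1 := by
            refine V.map_add_le (V.map_add_le (V.map_add_le ?_ ?_) ?_) hA1
            · rw [map_pow]
              exact pow_le_one' hT1 2
            · rw [map_mul]
              exact mul_le_one' hT1 hθ1
            · rw [map_pow]
              exact pow_le_one' hθ1 2
          refine le_antisymm hgle (not_lt.1 fun h2 => hw ?_)
          have h3 : V (3 * θ ^ 2 + A) < 1 := by
            have e : 3 * θ ^ 2 + A = (T ^ 2 + T * θ + θ ^ 2 + A) - (T - θ) * (T + 2 * θ) := by ring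
            rw [e]
            refine V.map_sub_lt h2 ?_
            rw [map_mul]
            refine mul_lt_one_of_lt_of_le h1 (V.map_add_le hT1 ?_)
            rw [map_mul]
            refine mul_le_one' ?_ hθ1
            have := hint 2
            rwa [map_ofNat] at this
          have h4 : V (algebraMap (𝓞 L) L (algebraMap (𝓞 K) (𝓞 L)
              (2 * (4 * a ^ 3 + 27 * b ^ 2)))) < 1 := by
            have e1 : algebraMap (𝓞 L) L (algebraMap (𝓞 K) (𝓞 L) (2 * (4 * a ^ 3 + 27 * b ^ 2))) =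
                (3 * θ ^ 2 + A) * algebraMap (𝓞 L) L (2 * (6 * algebraMap (𝓞 K) (𝓞 L) a * t0 ^ 2 -
                  9 * algebraMap (𝓞 K) (𝓞 L) b * t0 + 4 * algebraMap (𝓞 K) (𝓞 L) a ^ 2)) := by
              have e2 : algebraMap (𝓞 L) L (algebraMap (𝓞 K) (𝓞 L) a) = A := rfl
              have e3 : algebraMap (𝓞 L) L (algebraMap (𝓞 K) (𝓞 L) b) = B := rfl
              have e4 : algebraMap (𝓞 L) L t0 = θ := ht0
              simp only [map_add, map_sub, map_mul, map_pow, map_ofNat, e2, e3, e4]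
              linear_combination (-2 * (18 * A * θ - 27 * B)) * hθ
            rw [e1, map_mul]
            exact mul_lt_one_of_lt_of_le h3 (hint _)
          exact (w.valuation_lt_one_iff_mem (K := L) _).1 h4
        rw [hVD, hg, one_pow, one_mul, mul_one] at hy2
        rw [map_mul, hVD, one_mul]
        exact ⟨V (algebraMap K L y), by rw [← hy2, sq]⟩
  · have h1 : V (T - θ) = V T := V.map_sub_eq_of_lt_left (hθ1.trans_lt hT1)
    have hT2 : V T < V T ^ 2 := by
      rw [sq]
      exact lt_mul_of_one_lt_left (zero_lt_one.trans hT1) hT1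
    have h2 : V (T ^ 2 + T * θ + θ ^ 2 + A) = V T ^ 2 := by
      have e : T ^ 2 + T * θ + θ ^ 2 + A = (T * θ + θ ^ 2 + A) + T ^ 2 := by ring
      rw [e, V.map_add_eq_of_lt_right, map_pow]
      rw [map_pow]
      refine V.map_add_lt (V.map_add_lt ?_ ?_) ((hA1.trans_lt hT1).trans hT2)
      · rw [map_mul]
        exact (mul_le_of_le_one_right' hθ1).trans_lt hT2
      · rw [map_pow]
        exact (pow_le_one' hθ1 2).trans_lt (hT1.trans hT2)
    rw [h1, h2] at hy2
    have hVT0 : V T ≠ 0 := (zero_lt_one.trans hT1).ne'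
    rw [map_mul, h1]
    refine ⟨V (algebraMap K L y) / (V DD * V T), ?_⟩
    rw [← sq, div_pow, hy2, eq_div_iff (pow_ne_zero 2 (mul_ne_zero hVD0 hVT0)), ← pow_succ',
      mul_pow, ← pow_succ']

/-- the condition at the bad places -/
theorem loc_im {a b : 𝓞 K} {θ : L} {D : 𝓞 K} (hD : D ≠ 0) (v : HeightOneSpectrum (𝓞 K))
    (hv : IsSquare (algebraMap K (v.adicCompletion K) D)) {t y : K} (hy0 : y ≠ 0)
    (hy : y ^ 2 = (D : K) ^ 3 * (t ^ 3 + a * t + b)) :
    LocIm a b θ v (algebraMap K L D * (algebraMap K L t - θ)) := by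
  obtain ⟨d, hd⟩ := hv
  have hD0 : algebraMap K (v.adicCompletion K) D ≠ 0 :=
    (map_ne_zero _).2 (fun h => hD (RingOfIntegers.ext h))
  have hd0 : d ≠ 0 := by
    rintro rfl
    rw [mul_zero] at hd
    exact hD0 hd
  have hy0' : algebraMap K (v.adicCompletion K) y ≠ 0 := (map_ne_zero _).2 hy0
  refine Or.inr ⟨algebraMap K (v.adicCompletion K) t,
    algebraMap K (v.adicCompletion K) y / (algebraMap K (v.adicCompletion K) D * d),
    div_ne_zero hy0' (mul_ne_zero hD0 hd0), ?_, ?_⟩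
  · have h1 := congrArg (algebraMap K (v.adicCompletion K)) hy
    simp only [map_add, map_mul, map_pow] at h1
    rw [div_pow, h1, mul_pow, sq d, ← hd]
    field_simp
  · refine ⟨d ⊗ₜ[K] (algebraMap K L t - θ), ?_⟩
    have e1 : algebraMap K (v.adicCompletion K) t ⊗ₜ[K] (1 : L) =
        1 ⊗ₜ[K] algebraMap K L t := by
      rw [Algebra.algebraMap_eq_smul_one, Algebra.algebraMap_eq_smul_one, TensorProduct.smul_tmul]
    rw [e1, ← TensorProduct.tmul_sub, Algebra.TensorProduct.tmul_mul_tmul,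
      Algebra.TensorProduct.tmul_mul_tmul, ← hd, one_mul, mul_assoc, ← Algebra.smul_def,
      ← TensorProduct.smul_tmul, Algebra.smul_def, mul_one]

/-- **Descent**: the points over `K` of the twist by `D` are divisible by two. -/
theorem div_two [DecidableEq K] {a b : 𝓞 K} {θ : L} (hc : Cub K θ)
    (hθ : θ ^ 3 + algebraMap K L a * θ + algebraMap K L b = 0) (hS : SelTriv a b θ)
    {D : 𝓞 K} (hD : D ≠ 0)
    (hD1 : ∀ v : HeightOneSpectrum (𝓞 K), 2 * (4 * a ^ 3 + 27 * b ^ 2) ∈ v.asIdeal →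
      IsSquare (algebraMap K (v.adicCompletion K) D))
    (hD2 : ∀ v : HeightOneSpectrum (𝓞 K), 2 * (4 * a ^ 3 + 27 * b ^ 2) ∉ v.asIdeal →
      D ∈ v.asIdeal → v.valuation K (D : K) = exp (-1 : ℤ) ∧
        ∀ X : 𝓞 K, X ^ 3 + a * X + b ∉ v.asIdeal)
    (P : (crv ((a : K) * (D : K) ^ 2) ((b : K) * (D : K) ^ 3)).toAffine.Point) :
    ∃ Q, Q + Q = P := by
  have hD0 : (D : K) ≠ 0 := fun h => hD (RingOfIntegers.ext h)
  have hDL : algebraMap K L D ≠ 0 := (map_ne_zero _).2 hD0
  rcases P with _ | ⟨x, y, hxy⟩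
  · exact ⟨0, add_zero 0⟩
  · have hE := equation_iff.1 hxy.1
    set t : K := x / D with ht
    have hxt : x = D * t := by rw [ht]; field_simp
    have hyt : y ^ 2 = (D : K) ^ 3 * (t ^ 3 + a * t + b) := by
      rw [hE, hxt]; ring
    have hαne : algebraMap K L t - θ ≠ 0 := by
      intro h
      have h1 := hc.ind t (-1) 0 (by
        rw [map_neg, map_one, map_zero]
        linear_combination h)
      exact absurd h1.2.1 (by norm_num)
    have hy0 : y ≠ 0 := by
      rintro rfl
      rw [zero_pow two_ne_zero] at hyt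
      have h1 : t ^ 3 + (a : K) * t + b = 0 := by
        rcases mul_eq_zero.1 hyt.symm with h | h
        · exact absurd h (pow_ne_zero 3 hD0)
        · exact h
      have h2 : (algebraMap K L t - θ) * (algebraMap K L t ^ 2 + algebraMap K L t * θ + θ ^ 2 +
          algebraMap K L a) = 0 := by
        have h3 := congrArg (algebraMap K L) h1
        simp only [map_add, map_mul, map_pow, map_zero] at h3
        linear_combination h3 - hθ
      rcases mul_eq_zero.1 h2 with h | h
      · exact hαne h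
      · have h3 := hc.ind (t ^ 2 + a) t 1 (by
          rw [map_add, map_pow, map_one]
          linear_combination h)
        exact one_ne_zero h3.2.2
    have hsq := hS (algebraMap K L D * (algebraMap K L t - θ)) (mul_ne_zero hDL hαne) ?_
      (fun w hw => val_sq hθ hD hD2 hyt w hw) (fun v hv => loc_im hD v (hD1 v hv) hy0 hyt)
    · have hθ' : (algebraMap K L D * θ) ^ 3 + algebraMap K L ((a : K) * (D : K) ^ 2) *
          (algebraMap K L D * θ) + algebraMap K L ((b : K) * (D : K) ^ 3) = 0 := by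
        simp only [map_mul, map_pow]
        linear_combination (algebraMap K L D) ^ 3 * hθ
      have e : algebraMap K L D * (algebraMap K L t - θ) =
          algebraMap K L x - algebraMap K L D * θ := by
        rw [hxt, map_mul]
        ring
      rw [e] at hsq
      exact halve_sq two_ne_zero hθ' (hc.smul hD0).ind (hc.smul hD0).span hxy hsq
    · have e : algebraMap K L D * (algebraMap K L t - θ) =
          algebraMap K L x - algebraMap K L D * θ := by
        rw [hxt, map_mul]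
        ring
      rw [e, norm_lin hc hD0 hθ]
      refine ⟨y, ?_⟩
      rw [← sq, hE]

/-- **The group of the points is finite.** -/
theorem finite_twist [DecidableEq K] {a b : 𝓞 K} (hab : 4 * a ^ 3 + 27 * b ^ 2 ≠ 0) {θ : L}
    (hc : Cub K θ)
    (hθ : θ ^ 3 + algebraMap K L a * θ + algebraMap K L b = 0) (hS : SelTriv a b θ)
    {D : 𝓞 K} (hD : D ≠ 0)
    (hD1 : ∀ v : HeightOneSpectrum (𝓞 K), 2 * (4 * a ^ 3 + 27 * b ^ 2) ∈ v.asIdeal →
      IsSquare (algebraMap K (v.adicCompletion K) D))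
    (hD2 : ∀ v : HeightOneSpectrum (𝓞 K), 2 * (4 * a ^ 3 + 27 * b ^ 2) ∉ v.asIdeal →
      D ∈ v.asIdeal → v.valuation K (D : K) = exp (-1 : ℤ) ∧
        ∀ X : 𝓞 K, X ^ 3 + a * X + b ∉ v.asIdeal) :
    Finite (crv ((a : K) * (D : K) ^ 2) ((b : K) * (D : K) ^ 3)).toAffine.Point ∧
      Odd (Nat.card (crv ((a : K) * (D : K) ^ 2) ((b : K) * (D : K) ^ 3)).toAffine.Point) := by
  have hD0 : (D : K) ≠ 0 := fun h => hD (RingOfIntegers.ext h)
  refine Pool.Agent.Y809.BS.finite_odd (mw K _ _ ?_) (div_two hc hθ hS hD hD1 hD2)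
  have e : 4 * ((a : K) * (D : K) ^ 2) ^ 3 + 27 * ((b : K) * (D : K) ^ 3) ^ 2 =
      (D : K) ^ 6 * ((4 * a ^ 3 + 27 * b ^ 2 : 𝓞 K) : K) := by
    simp only [map_add, map_mul, map_pow, map_ofNat]
    ring
  rw [e]
  exact mul_ne_zero (pow_ne_zero 6 hD0) (fun h => hab (RingOfIntegers.ext h))

end Pool.Agent.K4H55.BD
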