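import Pool.Agent.K4H55.BD.Tw
import Pool.Agent.K4H55.BD.Sel
import Pool.Agent.K4H55.AB.Cls

/-!
The rank of the twists.
-/

set_option autoImplicit false

namespace Pool.Agent.K4H55.BD

open NumberField IsDedekindDomain ComplexConjugate Filter Topology
open Pool.Agent.K4H55.BI (IQ BF NVT Adm sym chiT gen gen_span gen_dvd gen_prime efac)
open Pool.Agent.Y18.BSD (dd disc dd_ne_zero recip)
open WithZero
open scoped symmDiff

variable {K : Type} [Field K] [NumberField K] {σ : K →+* ℂ} {δ : K}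

lemma norm_gen (h : IQ K σ δ) (v : HeightOneSpectrum (𝓞 K)) :
    gen (hP := h.pid) v * tau h (gen (hP := h.pid) v) = ((Ideal.absNorm v.asIdeal : ℕ) : 𝓞 K) := by
  have := h.pid
  rw [mul_tau, norm_eq h, gen_span]
  exact Int.cast_natCast _

lemma spl_of (h : IQ K σ δ) {q : ℕ} (hq : q.Prime) (hq2 : q ≠ 2)
    (hdeg : ∀ v : HeightOneSpectrum (𝓞 K), (q : 𝓞 K) ∈ v.asIdeal → Ideal.absNorm v.asIdeal = q)
    (hunr : ∀ v : HeightOneSpectrum (𝓞 K), (q : 𝓞 K) ∈ v.asIdeal → (q : 𝓞 K) ∉ v.asIdeal ^ 2) :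
    Spl h q := by
  refine ⟨hq, hq2, hdeg, fun v hv => ?_⟩
  have := h.pid
  by_contra hcon
  push Not at hcon
  apply hunr v hv
  have h1 := norm_gen h v
  rw [hdeg v hv] at h1
  rw [← h1, pow_two]
  have h2 : gen v ∈ v.asIdeal := gen_dvd.1 (dvd_refl (gen v))
  refine Ideal.mul_mem_mul h2 ?_
  have h3 := hcon (gen v)
  have h4 := v.asIdeal.sub_mem h2 h3
  rwa [sub_sub_cancel] at h4

lemma spl_sq (h : IQ K σ δ) {q : ℕ} (hq : Spl h q) {v : HeightOneSpectrum (𝓞 K)}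
    (hv : (q : 𝓞 K) ∈ v.asIdeal) : (q : 𝓞 K) ∉ v.asIdeal ^ 2 := by
  intro hcon
  have := h.pid
  have h1 := norm_gen h v
  rw [hq.deg v hv] at h1
  have h2 : v.asIdeal ^ 2 = Ideal.span {gen v ^ 2} := by
    rw [← Ideal.span_singleton_pow, gen_span]
  rw [h2, Ideal.mem_span_singleton, ← h1, pow_two] at hcon
  have hg0 : gen v ≠ 0 := (gen_prime v).ne_zero
  have h3 : gen v ∣ tau h (gen v) := (mul_dvd_mul_iff_left hg0).1 hcon
  have h4 : tau h (gen v) ∈ v.asIdeal := gen_dvd.1 h3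
  apply tv_ne h hq hv
  symm
  -- `v ≤ τ v`
  apply HeightOneSpectrum.ext
  refine v.isMaximal.eq_of_le (tv h v).isPrime.ne_top ?_
  intro x hx
  have hx' := gen_dvd.2 hx
  obtain ⟨y, rfl⟩ := hx'
  show tau h (gen v * y) ∈ v.asIdeal
  rw [map_mul]
  exact v.asIdeal.mul_mem_right _ h4

lemma val_q {v : HeightOneSpectrum (𝓞 K)} {q : 𝓞 K} (h1 : q ∈ v.asIdeal) (h2 : q ∉ v.asIdeal ^ 2) :
    v.valuation K (q : K) = exp (-1 : ℤ) := by
  have h3 : v.valuation K (q : K) = v.intValuation q := v.valuation_of_algebraMap q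
  rw [h3]
  have h4 : v.intValuation q ≤ exp (-1 : ℤ) := by
    have := (v.intValuation_le_pow_iff_mem q 1).2 (by rwa [pow_one])
    simpa using this
  have h5 : ¬ v.intValuation q ≤ exp (-2 : ℤ) := by
    intro h6
    apply h2
    refine (v.intValuation_le_pow_iff_mem q 2).1 ?_
    simpa using h6
  have hq0 : q ≠ 0 := by
    rintro rfl
    exact h2 (Ideal.zero_mem _)
  have h6 := v.intValuation_if_neg hq0
  rw [h6] at h4 h5 ⊢
  rw [exp_le_exp] at h4 h5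
  congr 1
  omega

/-- the primes of the local conditions -/
noncomputable def P0 (h : IQ K σ δ) {x : 𝓞 K} (hx : x ≠ 0) : Finset ℕ := (bad_fin h hx).toFinset

lemma mem_P0 (h : IQ K σ δ) {x : 𝓞 K} (hx : x ≠ 0) {p : ℕ} : p ∈ P0 h hx ↔
    p.Prime ∧ ∃ v : HeightOneSpectrum (𝓞 K), (p : 𝓞 K) ∈ v.asIdeal ∧ x ∈ v.asIdeal := by
  unfold P0
  rw [Set.Finite.mem_toFinset]
  rfl

variable {L : Type} [Field L] [NumberField L] [Algebra K L] {θ : L} {a b n : 𝓞 K}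
  {c : Ideal (𝓞 K) → ℂ}

theorem rank_zero (h : IQ K σ δ) (hx : 2 * (4 * a ^ 3 + 27 * b ^ 2) ≠ 0) (hcub : Cub K θ)
    (hθ : θ ^ 3 + algebraMap K L a * θ + algebraMap K L b = 0) (hS : SelTriv a b θ)
    {pos : Prop} {P : Finset ℕ} {D : ℤ} (hD : AB.DC (QE h a b n) pos (P ∪ P0 h hx) D) :
    Finite (crv ((a : K) * (D : K) ^ 2) ((b : K) * (D : K) ^ 3)).toAffine.Point := by
  classical
  have hA : ∀ q ∈ QE h a b n, q.Prime ∧ q ≠ 2 := fun q hq => ⟨hq.1.pr, hq.1.odd⟩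
  have hD0 : D ≠ 0 := by
    rintro rfl
    exact not_squarefree_zero hD.sqf
  have hg := hD.gt
  have hdD := AB.disc_pf hD.sqf hD.one
  have hddD := AB.dd_pf hD.sqf
  have hΔ : 4 * a ^ 3 + 27 * b ^ 2 ≠ 0 := fun h1 => hx (by rw [h1, mul_zero])
  have h1 := (finite_twist hΔ hcub hθ hS (D := (D : 𝓞 K)) (by exact_mod_cast hD0) ?_ ?_).1
  · simpa using h1
  · intro v hv
    obtain ⟨p, hp, hpv, -⟩ := nv_cases h v
    have h2 := hD.loc p (Finset.mem_union_right _ ((mem_P0 h hx).2 ⟨hp, v, hpv, hv⟩))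
    rw [← hddD] at h2
    have h3 := sq_loc (fun q hq => hA q (hg.adm q hq)) hp h2 v hpv
    rw [hdD] at h3
    simpa using h3
  · intro v hv hDv
    have h2 := hDv
    rw [← hdD] at h2
    obtain ⟨q, hq, hqv⟩ := disc_mem.1 h2
    have hqA := hg.adm q hq
    refine ⟨?_, (hqA.2 v hqv).2.2⟩
    have hqD : (q : ℤ) ∣ D := Int.natCast_dvd.2 (Nat.dvd_of_mem_primeFactors hq)
    obtain ⟨m, rfl⟩ := hqD
    have hqm : ¬ (q : ℤ) ∣ m := by
      rintro ⟨k, rfl⟩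
      have h3 := hD.sqf (q : ℤ) ⟨k, by ring⟩
      have h4 := Int.isUnit_iff.1 h3
      have h5 := hqA.1.pr.two_le
      omega
    have hmv : (m : 𝓞 K) ∉ v.asIdeal := fun h3 => hqm ((int_mem hqA.1.pr hqv).1 h3)
    have e : (((q : ℤ) * m : ℤ) : 𝓞 K) = (q : 𝓞 K) * (m : 𝓞 K) := by push_cast; ring
    have h3 : v.valuation K (algebraMap (𝓞 K) K (m : 𝓞 K)) = 1 := by
      rw [v.valuation_of_algebraMap]
      exact HeightOneSpectrum.intValuation_eq_one_iff.2 hmv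
    show v.valuation K (algebraMap (𝓞 K) K (((q : ℤ) * m : ℤ) : 𝓞 K)) = _
    rw [e, map_mul, map_mul, h3, mul_one]
    exact val_q hqv (spl_sq h hqA.1 hqv)

theorem no_root (hcub : Cub K θ) (hθ : θ ^ 3 + algebraMap K L a * θ + algebraMap K L b = 0)
    (x : K) : ¬ Ro (a : K) (b : K) x := by
  intro hx
  unfold Ro at hx
  -- `(θ - x) (θ² + x θ + x² + a) = 0`
  have h1 : (θ - algebraMap K L x) * (algebraMap K L (x ^ 2 + a) + algebraMap K L x * θ +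
      algebraMap K L 1 * θ ^ 2) = 0 := by
    have h2 := congrArg (algebraMap K L) hx
    simp only [map_add, map_mul, map_pow, map_zero, map_one] at h2 ⊢
    linear_combination hθ - h2
  rcases mul_eq_zero.1 h1 with h2 | h2
  · have h3 := hcub.ind (-x) 1 0 (by
      simp only [map_neg, map_one, map_zero]
      linear_combination h2)
    exact one_ne_zero h3.2.1
  · exact one_ne_zero (hcub.ind _ _ _ h2).2.2

theorem main (h : IQ K σ δ) [hP : IsPrincipalIdealRing (𝓞 K)]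
    (hx : 2 * (4 * a ^ 3 + 27 * b ^ 2) ≠ 0) (hf : BF σ δ n c)
    (hc : ∀ v : HeightOneSpectrum (𝓞 K), 2 * (4 * a ^ 3 + 27 * b ^ 2) ∉ v.asIdeal →
      n ∉ v.asIdeal ∧ c v.asIdeal = (Ideal.absNorm v.asIdeal : ℂ) - pv a b v)
    (h0 : NVE a b n c 1) (hcub : Cub K θ)
    (hθ : θ ^ 3 + algebraMap K L a * θ + algebraMap K L b = 0) :
    ∃ (V : ℕ) (ε : ℝ), 0 < ε ∧ ε < 1 ∧ ∀ (pos : Prop) (P : Finset ℕ), (∀ p ∈ P, p.Prime) →
      ∃ KD : Finset ℤ, KD.card ≤ V ∧ (∀ k ∈ KD, AB.DC (QE h a b n) pos (P ∪ P0 h hx) k) ∧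
      (∀ D, AB.DC (QE h a b n) pos (P ∪ P0 h hx) D → ∃ k ∈ KD, ∃ g D' : ℤ, g ≠ 0 ∧
        D' * g ^ 2 = D * k ∧ AB.DC (QE h a b n) pos (P ∪ P0 h hx) D' ∧ NVE a b n c D') ∧
      (∃ C : ℕ, ∀ X : ℕ, Nat.card {D : ℤ // AB.DC (QE h a b n) pos (P ∪ P0 h hx) D ∧ |D| ≤ X} ≤
        C * Nat.card {D : ℤ // AB.DC (QE h a b n) pos (P ∪ P0 h hx) D ∧ |D| ≤ C * X ∧
          NVE a b n c D}) ∧
      ∃ X0 : ℕ, ∀ X : ℕ, X0 ≤ X → (X : ℝ) / Real.log X ^ (1 - ε) ≤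
        Nat.card {D : ℤ // AB.DC (QE h a b n) pos (P ∪ P0 h hx) D ∧ |D| ≤ X ∧ NVE a b n c D} := by
  classical
  have hA : ∀ q ∈ QE h a b n, q.Prime ∧ q ≠ 2 := fun q hq => ⟨hq.1.pr, hq.1.odd⟩
  have hΔ : 4 * a ^ 3 + 27 * b ^ 2 ≠ 0 := fun h1 => hx (by rw [h1, mul_zero])
  obtain ⟨lam, hlam, h2, hint⟩ := Pool.Agent.Y18.LP.exists_lam Nat.prime_two
  have h2' : (2 : integralClosure ℤ ℂ) ∈ lam := by exact_mod_cast h2
  have hpl0 : pl K ∅ = ∅ := by unfold pl; simp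
  have hbase : NVT n c ∅ := by
    obtain ⟨G, h3, h4, h5⟩ := h0
    refine ⟨G, h3, fun s hs => ?_, h5⟩
    have h6 := h4 s hs
    have h7 : ef a b n c 1 s = efac n c ∅ s := by
      funext v
      have h8 := ef_eq h (a := a) (b := b) (n := n) (c := c) (T := ∅)
        (fun q hq => absurd hq (Finset.notMem_empty q)) (fun p _ _ => by unfold dd; simp) hc s v
      rw [hpl0] at h8
      rw [← h8]
      unfold disc
      simp
    rwa [h7] at h6
  obtain ⟨V, hV⟩ := main_q h (fun _ : Unit => n) (fun _ => c) (fun _ => hf) (fun _ => hbase) lam hlam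
    h2'
  obtain ⟨d, hd, hdens⟩ := densK h hΔ hf.n0 (no_root hcub hθ)
  obtain ⟨ε, hε, hε1, hq⟩ := AB.quant hA hd hdens
  refine ⟨V, ε, hε, hε1, fun pos P hP => ?_⟩
  obtain ⟨KK, hK1, hK2, hK3⟩ := hV (QE h a b n) (QE_sub h hc fun m hm => by exact_mod_cast hint m hm)
    pos (P ∪ P0 h hx)
  obtain ⟨KD, h4, h5, h6, C, h7⟩ := AB.dlevel hA (NVE a b n c) KK hK2 (fun T hT => by
    obtain ⟨k, hk, h4⟩ := hK3 T hT
    refine ⟨k, hk, ?_⟩
    obtain ⟨G, h5, h6, h7⟩ := h4 ()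
    refine ⟨G, h5, fun s hs => ?_, h7⟩
    have h8 := h6 s hs
    have hTk := hT.symm hA (hK2 k hk)
    have h9 : ef a b n c (disc (T ∆ k)) s = efac n c (pl K (T ∆ k)) s := by
      funext v
      refine ef_eq h (fun q hq => (hTk.adm q hq).1) (fun p hp hpv => ?_) hc s v
      exact hTk.loc p (Finset.mem_union_right _ ((mem_P0 h hx).2 ⟨hp, hpv⟩))
    rw [h9]
    exact h8)
  refine ⟨KD, h4.trans hK1, h5, h6, ⟨C, h7⟩, ?_⟩
  refine hq (NVE a b n c) pos (P ∪ P0 h hx) (fun p hp => ?_) C h7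
  rcases Finset.mem_union.1 hp with h8 | h8
  · exact hP p h8
  · exact ((mem_P0 h hx).1 h8).1

end Pool.Agent.K4H55.BD
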