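import Mathlib
import Pool.Agent.H64R2.DD_MWK
import Pool.Agent.Y809.BS.Desc

/-!
Division by two on `y² = x³ + a x + b`, the algebra.
-/

set_option autoImplicit false

namespace Pool.Agent.K4H55.BD

open Polynomial WeierstrassCurve

/-- the curve `y² = x³ + a x + b` -/
def crv {K : Type*} [Field K] (a b : K) : WeierstrassCurve K := ⟨0, 0, 0, a, b⟩

lemma equation_iff {K : Type*} [Field K] {a b x y : K} :
    (crv a b).toAffine.Equation x y ↔ y ^ 2 = x ^ 3 + a * x + b := by
  rw [Affine.equation_iff]
  simp only [crv, WeierstrassCurve.toAffine]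
  constructor
  · intro h
    linear_combination h
  · intro h
    linear_combination h

lemma nonsingular_of {K : Type*} [Field K] (h2 : (2 : K) ≠ 0) {a b x y : K}
    (h : y ^ 2 = x ^ 3 + a * x + b) (hy : y ≠ 0) : (crv a b).toAffine.Nonsingular x y := by
  rw [Affine.nonsingular_iff]
  refine ⟨equation_iff.2 h, Or.inr ?_⟩
  simp only [crv, WeierstrassCurve.toAffine]
  intro h3
  have h4 : 2 * y = 0 := by linear_combination h3
  rcases mul_eq_zero.1 h4 with h5 | h5
  · exact h2 h5
  · exact hy h5

theorem mw (K : Type) [Field K] [NumberField K] [DecidableEq K] (a b : K)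
    (hab : 4 * a ^ 3 + 27 * b ^ 2 ≠ 0) : AddGroup.FG (crv a b).toAffine.Point := by
  classical
  let P : Cubic K := ⟨1, 0, a, b⟩
  let L : Type := P.toPoly.SplittingField
  have : NumberField L := NumberField.of_module_finite K L
  have ha : P.a ≠ 0 := one_ne_zero
  have hsp : Splits (P.toPoly.map (algebraMap K L)) := SplittingField.splits P.toPoly
  obtain ⟨x, y, z, h3⟩ := (Cubic.splits_iff_roots_eq_three ha).1 hsp
  have hdisc : P.discr ≠ 0 := by
    have h : P.discr = -(4 * a ^ 3 + 27 * b ^ 2) := by
      simp only [Cubic.discr, P]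
      ring
    rw [h, neg_ne_zero]
    exact hab
  obtain ⟨hxy, hxz, hyz⟩ := (Cubic.discr_ne_zero_iff_roots_ne ha h3).1 hdisc
  have hb := Cubic.b_eq_three_roots ha h3
  have hc := Cubic.c_eq_three_roots ha h3
  have hd := Cubic.d_eq_three_roots ha h3
  simp only [P, map_one, map_zero, one_mul] at hb hc hd
  have hK : AddGroup.FG (Pool.Agent.H437R2.Man.MW.crv (-x) (-y) (-z)).toAffine.Point :=
    Pool.Agent.H437R2.Man.MW.pt_fg (fun h => hxy (neg_injective h)) (fun h => hxz (neg_injective h))
      (fun h => hyz (neg_injective h))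
  have heq : (Pool.Agent.H437R2.Man.MW.crv (-x) (-y) (-z)).toAffine =
      ((crv a b).baseChange L) := by
    apply WeierstrassCurve.ext
    · change (0 : L) = algebraMap K L 0
      rw [map_zero]
    · change -x + -y + -z = algebraMap K L 0
      rw [map_zero]
      linear_combination -hb
    · change (0 : L) = algebraMap K L 0
      rw [map_zero]
    · change -x * -y + -x * -z + -y * -z = algebraMap K L a
      linear_combination -hc
    · change -x * -y * -z = algebraMap K L b
      linear_combination -hd
  have hK' : AddGroup.FG ((crv a b).baseChange L).toAffine.Point :=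
    Pool.Agent.H64R2.DDMWK.fg_of_eq heq hK
  have hinj := WeierstrassCurve.Affine.Point.map_injective (W' := crv a b)
    (Algebra.ofId K L)
  exact Pool.Agent.H64R2.DDMWK.fg_of_inj _ hinj hK'

theorem halve {K : Type*} [Field K] [DecidableEq K] (h2 : (2 : K) ≠ 0) {a b x y u v w : K}
    (hxy : (crv a b).toAffine.Nonsingular x y) (e2 : v ^ 2 + 2 * u * w = a * w ^ 2)
    (e1 : 2 * u * v = -1 + b * w ^ 2 + 2 * a * v * w) (e0 : u ^ 2 = x + 2 * b * v * w) :
    ∃ Q : (crv a b).toAffine.Point, Q + Q = .some x y hxy := by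
  have hw : w ≠ 0 := by
    rintro rfl
    have h3 : v ^ 2 = 0 := by linear_combination e2
    have h4 : v = 0 := pow_eq_zero_iff (two_ne_zero) |>.1 h3
    rw [h4] at e1
    have h5 : (1 : K) = 0 := by linear_combination e1
    exact one_ne_zero h5
  have key : v ^ 3 + a * v * w ^ 2 + b * w ^ 3 = w := by
    linear_combination v * e2 - w * e1
  have hE : y ^ 2 = x ^ 3 + a * x + b := equation_iff.1 hxy.1
  set q : K := v / w with hq
  set r : K := 1 / w with hr
  have hr0 : r ≠ 0 := one_div_ne_zero hw
  have hqr : r ^ 2 = q ^ 3 + a * q + b := by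
    rw [hq, hr]
    field_simp
    linear_combination -key
  have hns := nonsingular_of h2 hqr hr0
  have hne : r ≠ (crv a b).toAffine.negY q r := by
    simp only [Affine.negY, crv, WeierstrassCurve.toAffine]
    intro h3
    have h4 : 2 * r = 0 := by linear_combination h3
    rcases mul_eq_zero.1 h4 with h5 | h5
    · exact h2 h5
    · exact hr0 h5
  have hsl : (crv a b).toAffine.slope q q r r = (3 * q ^ 2 + a) / (2 * r) := by
    rw [Affine.slope_of_Y_ne rfl hne]
    simp only [Affine.negY, crv, WeierstrassCurve.toAffine]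
    congr 1
    · ring
    · ring
  have hadd := Affine.Point.add_self_of_Y_ne (h₁ := hns) hne
  have hl : (3 * q ^ 2 + a) / (2 * r) = (2 * v ^ 2 + u * w) / w := by
    rw [hq, hr]
    field_simp
    linear_combination (-1 : K) * e2
  have hx : (crv a b).toAffine.addX q q ((crv a b).toAffine.slope q q r r) = x := by
    rw [hsl, hl]
    simp only [Affine.addX, crv, WeierstrassCurve.toAffine]
    rw [hq]
    field_simp
    linear_combination 4 * v * key + 2 * v * w * e1 + w ^ 2 * e0
  have hns2 := Affine.nonsingular_add hns hns fun h => hne h.2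
  have hE2 := equation_iff.1 hns2.1
  rw [hx, ← hE] at hE2
  rcases sq_eq_sq_iff_eq_or_eq_neg.1 hE2 with hy | hy
  · refine ⟨.some q r hns, ?_⟩
    rw [hadd]
    simp only [hx, hy]
  · refine ⟨-.some q r hns, ?_⟩
    rw [← neg_add, hadd, Affine.Point.neg_some]
    have h3 : (crv a b).toAffine.negY x (-y) = y := by
      simp only [Affine.negY, crv, WeierstrassCurve.toAffine]
      ring
    simp only [hx, hy, h3]

/-- **Division by two.** -/
theorem halve_sq {K L : Type*} [Field K] [DecidableEq K] (h2 : (2 : K) ≠ 0) [Field L] [Algebra K L]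
    {a b : K} {θ : L} (hθ : θ ^ 3 + algebraMap K L a * θ + algebraMap K L b = 0)
    (hind : ∀ p q r : K, algebraMap K L p + algebraMap K L q * θ + algebraMap K L r * θ ^ 2 = 0 →
      p = 0 ∧ q = 0 ∧ r = 0)
    (hspan : ∀ β : L, ∃ u v w : K, β = algebraMap K L u + algebraMap K L v * θ +
      algebraMap K L w * θ ^ 2)
    {x y : K} (hxy : (crv a b).toAffine.Nonsingular x y) (hsq : IsSquare (algebraMap K L x - θ)) :
    ∃ Q : (crv a b).toAffine.Point, Q + Q = .some x y hxy := by
  obtain ⟨β, hβ⟩ := hsq
  obtain ⟨u, v, w, rfl⟩ := hspan β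
  have h3 := hind (u ^ 2 - 2 * b * v * w - x) (2 * u * v - b * w ^ 2 - 2 * a * v * w + 1)
    (v ^ 2 + 2 * u * w - a * w ^ 2) (by
    simp only [map_add, map_sub, map_mul, map_pow, map_one, map_ofNat]
    linear_combination -hβ - (2 * algebraMap K L v * algebraMap K L w +
      algebraMap K L w ^ 2 * θ) * hθ)
  obtain ⟨e0, e1, e2⟩ := h3
  exact halve (u := u) (v := v) (w := w) h2 hxy (by linear_combination e2)
    (by linear_combination e1) (by linear_combination e0)

end Pool.Agent.K4H55.BD
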