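import Pool.Agent.K4H55.BI.Kl
import Pool.Agent.K4H55.AB.Fin

/-!
The quadratic residue symbols over split primes.
-/

set_option autoImplicit false

namespace Pool.Agent.K4H55.BD

open NumberField IsDedekindDomain ComplexConjugate Pool.Agent.K4H55.BI
open Pool.Agent.Y18.BSD (dd disc dd_ne_zero)

variable {K : Type} [Field K] [NumberField K] {σ : K →+* ℂ} {δ : K}

/-- the conjugate -/
noncomputable def cj (x : 𝓞 K) : 𝓞 K := algebraMap ℤ (𝓞 K) (Algebra.trace ℤ (𝓞 K) x) - x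

lemma sg_inj (σ : K →+* ℂ) {x y : 𝓞 K} (h : σ x = σ y) : x = y :=
  RingOfIntegers.ext (σ.injective h)

lemma sg_cj (h : IQ K σ δ) (x : 𝓞 K) : σ (cj x : 𝓞 K) = conj (σ x) := by
  have h1 := trace_iq h (x : K)
  rw [← Algebra.coe_trace_int] at h1
  have h2 : σ (cj x : 𝓞 K) = ((Algebra.trace ℤ (𝓞 K) x : ℤ) : ℂ) - σ x := by
    unfold cj
    simp
  rw [h2]
  have h3 : ((Algebra.trace ℤ (𝓞 K) x : ℤ) : ℂ) = σ x + conj (σ x) := by
    rw [← h1]
    push_cast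
    rfl
  rw [h3]
  ring

/-- the conjugation -/
noncomputable def tau (h : IQ K σ δ) : 𝓞 K →+* 𝓞 K where
  toFun := cj
  map_one' := sg_inj σ (by rw [sg_cj h]; simp)
  map_mul' x y := sg_inj σ (by
    rw [sg_cj h]
    simp only [map_mul, sg_cj h])
  map_zero' := sg_inj σ (by rw [sg_cj h]; simp)
  map_add' x y := sg_inj σ (by
    rw [sg_cj h]
    simp only [map_add, sg_cj h])

lemma sg_tau (h : IQ K σ δ) (x : 𝓞 K) : σ (tau h x : 𝓞 K) = conj (σ x) := sg_cj h x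

lemma tau_tau (h : IQ K σ δ) (x : 𝓞 K) : tau h (tau h x) = x :=
  sg_inj σ (by rw [sg_tau, sg_tau, Complex.conj_conj])

lemma tau_int (h : IQ K σ δ) (m : ℤ) : tau h (m : 𝓞 K) = m := map_intCast _ _

lemma mul_tau (h : IQ K σ δ) (x : 𝓞 K) : x * tau h x = ((Algebra.norm ℤ x : ℤ) : 𝓞 K) := by
  apply sg_inj σ
  have h1 := norm_iq h (x : K)
  rw [← Algebra.coe_norm_int] at h1
  simp only [map_mul, sg_tau]
  rw [← h1]
  simp

lemma norm_nonneg' (h : IQ K σ δ) (x : 𝓞 K) : 0 ≤ Algebra.norm ℤ x := by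
  have h1 := norm_iq h (x : K)
  rw [← Algebra.coe_norm_int, Complex.mul_conj, Complex.normSq_eq_norm_sq] at h1
  have h2 : ((Algebra.norm ℤ x : ℤ) : ℝ) = ‖σ x‖ ^ 2 := by exact_mod_cast h1
  have h3 : (0 : ℝ) ≤ (Algebra.norm ℤ x : ℤ) := by rw [h2]; positivity
  exact_mod_cast h3

lemma norm_eq (h : IQ K σ δ) (x : 𝓞 K) :
    Algebra.norm ℤ x = ((Ideal.absNorm (Ideal.span {x}) : ℕ) : ℤ) := by
  rw [Ideal.absNorm_span_singleton, Int.natAbs_of_nonneg (norm_nonneg' h x)]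

/-- the conjugate place -/
noncomputable def tv (h : IQ K σ δ) (v : HeightOneSpectrum (𝓞 K)) : HeightOneSpectrum (𝓞 K) where
  asIdeal := v.asIdeal.comap (tau h)
  isPrime := inferInstance
  ne_bot := by
    intro h0
    obtain ⟨x, hx, hx0⟩ := Submodule.exists_mem_ne_zero_of_ne_bot v.ne_bot
    have h1 : tau h x ∈ v.asIdeal.comap (tau h) := by
      rw [Ideal.mem_comap, tau_tau]
      exact hx
    rw [h0, Ideal.mem_bot] at h1
    apply hx0
    rw [← tau_tau h x, h1, map_zero]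

lemma mem_tv (h : IQ K σ δ) {v : HeightOneSpectrum (𝓞 K)} {x : 𝓞 K} :
    x ∈ (tv h v).asIdeal ↔ tau h x ∈ v.asIdeal := Iff.rfl

lemma sym_tv (h : IQ K σ δ) (v : HeightOneSpectrum (𝓞 K)) (x : 𝓞 K) :
    sym (tv h v) x = sym v (tau h x) := by
  unfold sym
  have h1 : (∃ y, x - y ^ 2 ∈ (tv h v).asIdeal) ↔ ∃ y, tau h x - y ^ 2 ∈ v.asIdeal := by
    constructor
    · rintro ⟨y, hy⟩
      rw [mem_tv, map_sub, map_pow] at hy
      exact ⟨_, hy⟩
    · rintro ⟨y, hy⟩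
      refine ⟨tau h y, ?_⟩
      rw [mem_tv, map_sub, map_pow, tau_tau]
      exact hy
  by_cases h2 : x ∈ (tv h v).asIdeal
  · rw [if_pos h2, if_pos ((mem_tv h).1 h2)]
  · rw [if_neg h2, if_neg fun h3 => h2 ((mem_tv h).2 h3)]
    by_cases h4 : ∃ y, x - y ^ 2 ∈ (tv h v).asIdeal
    · rw [if_pos h4, if_pos (h1.1 h4)]
    · rw [if_neg h4, if_neg fun h5 => h4 (h1.2 h5)]

section res

variable {v : HeightOneSpectrum (𝓞 K)} {q : ℕ}

lemma res_int (hq : q.Prime) (hv : Ideal.absNorm v.asIdeal = q) (x : 𝓞 K) :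
    ∃ m : ℤ, x - m ∈ v.asIdeal := by
  classical
  have hfin : Finite (𝓞 K ⧸ v.asIdeal) := Ideal.finiteQuotientOfFreeOfNeBot _ v.ne_bot
  have : Fact q.Prime := ⟨hq⟩
  have hmem : (q : 𝓞 K) ∈ v.asIdeal := by
    rw [← hv]
    exact Ideal.absNorm_mem _
  have hq0 : (q : 𝓞 K ⧸ v.asIdeal) = 0 := by
    have := (Ideal.Quotient.eq_zero_iff_mem (I := v.asIdeal)).2 hmem
    rwa [map_natCast] at this
  have hnt : Nontrivial (𝓞 K ⧸ v.asIdeal) := Ideal.Quotient.nontrivial_iff.2 v.isPrime.ne_top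
  have hchar : CharP (𝓞 K ⧸ v.asIdeal) q := by
    refine (CharP.charP_iff_prime_eq_zero hq).2 hq0
  let f : ZMod q →+* 𝓞 K ⧸ v.asIdeal := ZMod.castHom (dvd_refl q) _
  have hinj : Function.Injective f := f.injective
  have hcard : Nat.card (ZMod q) = Nat.card (𝓞 K ⧸ v.asIdeal) := by
    rw [Nat.card_zmod]
    rw [Ideal.absNorm_apply, Submodule.cardQuot_apply] at hv
    exact hv.symm
  have hbij := (Nat.bijective_iff_injective_and_card f).2 ⟨hinj, hcard⟩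
  obtain ⟨z, hz⟩ := hbij.2 (Ideal.Quotient.mk _ x)
  refine ⟨(z.val : ℤ), ?_⟩
  rw [← Ideal.Quotient.eq_zero_iff_mem, map_sub, ← hz]
  have : f z = (z.val : 𝓞 K ⧸ v.asIdeal) := by
    conv_lhs => rw [← ZMod.natCast_zmod_val z]
    exact map_natCast f _
  rw [this]
  push_cast
  rw [map_natCast, sub_self]

lemma int_mem (hq : q.Prime) (hv : (q : 𝓞 K) ∈ v.asIdeal) {n : ℤ} :
    ((n : ℤ) : 𝓞 K) ∈ v.asIdeal ↔ (q : ℤ) ∣ n := by
  constructor
  · intro hn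
    by_contra hnd
    have h1 : IsCoprime (q : ℤ) n :=
      (Int.prime_iff_natAbs_prime.2 (by simpa using hq)).coprime_iff_not_dvd.2 hnd
    obtain ⟨a, b, hab⟩ := h1
    apply v.isPrime.ne_top
    rw [Ideal.eq_top_iff_one]
    have h2 : (1 : 𝓞 K) = (a : 𝓞 K) * (q : 𝓞 K) + (b : 𝓞 K) * (n : 𝓞 K) := by
      have := congrArg (fun x : ℤ => (x : 𝓞 K)) hab
      push_cast at this
      exact this.symm
    rw [h2]
    exact v.asIdeal.add_mem (v.asIdeal.mul_mem_left _ hv) (v.asIdeal.mul_mem_left _ hn)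
  · rintro ⟨k, rfl⟩
    push_cast
    exact v.asIdeal.mul_mem_right _ hv

lemma sym_int (hq : q.Prime) (hv : Ideal.absNorm v.asIdeal = q) (n : ℤ) :
    sym v (n : 𝓞 K) = ((jacobiSym n q : ℤ) : ℂ) := by
  classical
  have : Fact q.Prime := ⟨hq⟩
  have hmem : (q : 𝓞 K) ∈ v.asIdeal := by
    rw [← hv]
    exact Ideal.absNorm_mem _
  rw [← jacobiSym.legendreSym.to_jacobiSym, legendreSym, quadraticChar_apply, quadraticCharFun]
  unfold sym
  have h1 : (n : 𝓞 K) ∈ v.asIdeal ↔ ((n : ℤ) : ZMod q) = 0 := by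
    rw [int_mem hq hmem, ZMod.intCast_zmod_eq_zero_iff_dvd]
  have h2 : (∃ y, (n : 𝓞 K) - y ^ 2 ∈ v.asIdeal) ↔ IsSquare ((n : ℤ) : ZMod q) := by
    constructor
    · rintro ⟨y, hy⟩
      obtain ⟨m, hm⟩ := res_int hq hv y
      refine ⟨(m : ZMod q), ?_⟩
      have h3 : ((n - m ^ 2 : ℤ) : 𝓞 K) ∈ v.asIdeal := by
        have e : ((n - m ^ 2 : ℤ) : 𝓞 K) = ((n : 𝓞 K) - y ^ 2) + (y - m) * (y + m) := by
          push_cast
          ring
        rw [e]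
        exact v.asIdeal.add_mem hy (v.asIdeal.mul_mem_right _ hm)
      have h4 := (int_mem hq hmem).1 h3
      rw [← ZMod.intCast_zmod_eq_zero_iff_dvd] at h4
      push_cast at h4
      linear_combination h4
    · rintro ⟨y, hy⟩
      refine ⟨(y.val : 𝓞 K), ?_⟩
      have e : (n : 𝓞 K) - (y.val : 𝓞 K) ^ 2 = ((n - (y.val : ℤ) ^ 2 : ℤ) : 𝓞 K) := by
        push_cast
        rfl
      rw [e, int_mem hq hmem, ← ZMod.intCast_zmod_eq_zero_iff_dvd]
      push_cast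
      rw [ZMod.natCast_zmod_val, hy]
      ring
  by_cases h3 : (n : 𝓞 K) ∈ v.asIdeal
  · rw [if_pos h3, if_pos (h1.1 h3)]
    simp
  · rw [if_neg h3, if_neg fun h => h3 (h1.2 h)]
    by_cases h4 : ∃ y, (n : 𝓞 K) - y ^ 2 ∈ v.asIdeal
    · rw [if_pos h4, if_pos (h2.1 h4)]
      simp
    · rw [if_neg h4, if_neg fun h => h4 (h2.2 h)]
      simp

end res

/-- `q` splits in `K` -/
structure Spl (h : IQ K σ δ) (q : ℕ) : Prop where
  pr : q.Prime
  odd : q ≠ 2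
  deg : ∀ v : HeightOneSpectrum (𝓞 K), (q : 𝓞 K) ∈ v.asIdeal → Ideal.absNorm v.asIdeal = q
  unr : ∀ v : HeightOneSpectrum (𝓞 K), (q : 𝓞 K) ∈ v.asIdeal → ∃ x, x - tau h x ∉ v.asIdeal

lemma tv_ne (h : IQ K σ δ) {q : ℕ} (hq : Spl h q) {v : HeightOneSpectrum (𝓞 K)}
    (hv : (q : 𝓞 K) ∈ v.asIdeal) : tv h v ≠ v := by
  intro he
  obtain ⟨x, hx⟩ := hq.unr v hv
  obtain ⟨m, hm⟩ := res_int hq.pr (hq.deg v hv) x
  apply hx
  have h1 : tau h x - m ∈ v.asIdeal := by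
    have h2 : x - m ∈ (tv h v).asIdeal := by rw [he]; exact hm
    rw [mem_tv, map_sub, tau_int] at h2
    exact h2
  have e : x - tau h x = (x - m) - (tau h x - m) := by ring
  rw [e]
  exact v.asIdeal.sub_mem hm h1

lemma mem_tv_nat (h : IQ K σ δ) {q : ℕ} {v : HeightOneSpectrum (𝓞 K)}
    (hv : (q : 𝓞 K) ∈ v.asIdeal) : (q : 𝓞 K) ∈ (tv h v).asIdeal := by
  rw [mem_tv, map_natCast]
  exact hv

lemma eq_or_tv (h : IQ K σ δ) {q : ℕ} (hq : Spl h q) {v w : HeightOneSpectrum (𝓞 K)}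
    (hv : (q : 𝓞 K) ∈ v.asIdeal) (hw : (q : 𝓞 K) ∈ w.asIdeal) : w = v ∨ w = tv h v := by
  have := h.pid
  have h1 : gen v * tau h (gen v) = (q : 𝓞 K) := by
    rw [mul_tau, norm_eq h, gen_span, hq.deg v hv]
    push_cast
    rfl
  rw [← h1] at hw
  rcases w.isPrime.mem_or_mem hw with h2 | h2
  · left
    exact gen_na (gen_dvd.2 h2)
  · right
    have h3 : gen v ∈ (tv h w).asIdeal := h2
    have h4 : tv h w = v := gen_na (gen_dvd.2 h3)
    rw [← h4]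
    apply HeightOneSpectrum.ext
    ext x
    rw [mem_tv, mem_tv, tau_tau]

end Pool.Agent.K4H55.BD
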