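import Pool.Agent.K4H55.AB.Cls
import Pool.Agent.K4H55.BD.Sym

/-!
Cubic polynomials over a quadratic field and the Galois group.
-/

set_option autoImplicit false

open NumberField IsDedekindDomain Filter Topology

namespace Pool.Agent.K4H55.BD

open Pool.Agent.W569.FM Pool.Agent.Y142
open Pool.Agent.K4H55.BI (IQ trace_iq norm_iq)
open Pool.Agent.K4H55.AB (X0 density_lower remove cA_mono conj_root conj_mem_HH mem_HH_all)

/-- `x` is a root of `X³ + α X + β` -/
def Ro {R : Type*} [CommRing R] (α β x : R) : Prop := x ^ 3 + α * x + β = 0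

section
variable {R : Type*} [CommRing R] [IsDomain R] {α β T S : R}

lemma ro_a (hT : Ro α β T) (hS : Ro α β S) (h : T ≠ S) : α = -(T ^ 2 + T * S + S ^ 2) := by
  unfold Ro at hT hS
  have h1 : (T - S) * (T ^ 2 + T * S + S ^ 2 + α) = 0 := by linear_combination hT - hS
  rcases mul_eq_zero.1 h1 with h2 | h2
  · exact absurd (sub_eq_zero.1 h2) h
  · linear_combination h2

lemma ro_b (hT : Ro α β T) (hS : Ro α β S) (h : T ≠ S) : β = T * S * (T + S) := by
  have h1 := ro_a hT hS h
  unfold Ro at hT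
  linear_combination hT - T * h1

lemma ro_disc (hT : Ro α β T) (hS : Ro α β S) (h : T ≠ S) :
    2 * (4 * α ^ 3 + 27 * β ^ 2) =
      (T - S) * (-2 * (T - S) * (2 * T + S) ^ 2 * (T + 2 * S) ^ 2) := by
  have h1 := ro_a hT hS h
  have h2 := ro_b hT hS h
  rw [h1, h2]
  ring

end

lemma ro_split {L : Type*} [Field L] [IsAlgClosed L] [CharZero L] (α β : L) :
    ∃ t1 t2 t3 : L, Ro α β t1 ∧ Ro α β t2 ∧ Ro α β t3 ∧
      ∀ x : L, x ^ 3 + α * x + β = (x - t1) * (x - t2) * (x - t3) := by
  obtain ⟨t, ht⟩ : ∃ t : L, Ro α β t := by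
    let p : Polynomial L := Polynomial.X ^ 3 + Polynomial.C α * Polynomial.X +
      Polynomial.C β
    have hp : p.degree ≠ 0 := by
      have : p.degree = 3 := by
        simp only [p]
        compute_degree!
      rw [this]
      norm_num
    obtain ⟨t, ht⟩ := IsAlgClosed.exists_root p hp
    refine ⟨t, ?_⟩
    simpa [p, Ro] using ht
  obtain ⟨d, hd⟩ := IsAlgClosed.exists_pow_nat_eq (-3 * t ^ 2 - 4 * α : L) (n := 2) (by norm_num)
  have hfac : ∀ x : L, x ^ 3 + α * x + β =
      (x - t) * (x - (-t + d) / 2) * (x - (-t - d) / 2) := by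
    intro x
    unfold Ro at ht
    have h2 : (2 : L) ≠ 0 := two_ne_zero
    field_simp
    linear_combination (x - t) * hd + 4 * ht
  refine ⟨t, (-t + d) / 2, (-t - d) / 2, ht, ?_, ?_, hfac⟩
  · unfold Ro
    rw [hfac]
    ring
  · unfold Ro
    rw [hfac]
    ring

/-- exactly three elements -/
structure Three {L : Type*} (R : L → Prop) (t1 t2 t3 : L) : Prop where
  r1 : R t1
  r2 : R t2
  r3 : R t3
  n12 : t1 ≠ t2
  n13 : t1 ≠ t3
  n23 : t2 ≠ t3
  all : ∀ t, R t → t = t1 ∨ t = t2 ∨ t = t3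

lemma three_of {L : Type*} [Field L] [IsAlgClosed L] [CharZero L] {α β : L}
    (hΔ : 4 * α ^ 3 + 27 * β ^ 2 ≠ 0) : ∃ t1 t2 t3 : L, Three (Ro α β) t1 t2 t3 := by
  obtain ⟨t1, t2, t3, h1, h2, h3, hsp⟩ := ro_split α β
  have hc : ∀ s t : L, (∀ x : L, x ^ 3 + α * x + β = (x - s) * (x - s) * (x - t)) → False := by
    intro s t hx
    have e0 := hx 0
    have e1 := hx 1
    have e2 := hx (-1)
    have k1 : 2 * s + t = 0 := by linear_combination (1 / 2 : L) * (e1 + e2) - e0
    have k2 : t = -2 * s := by linear_combination k1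
    have k3 : β = 2 * s ^ 3 := by
      rw [k2] at e0
      linear_combination e0
    have k4 : α = -3 * s ^ 2 := by
      rw [k2] at e1
      rw [k3] at e1
      linear_combination e1
    apply hΔ
    rw [k4, k3]
    ring
  refine ⟨t1, t2, t3, h1, h2, h3, ?_, ?_, ?_, ?_⟩
  · rintro rfl
    exact hc t1 t3 hsp
  · rintro rfl
    exact hc t1 t2 fun x => (hsp x).trans (by ring)
  · rintro rfl
    exact hc t2 t1 fun x => (hsp x).trans (by ring)
  · intro t ht
    unfold Ro at ht
    rw [hsp] at ht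
    rcases mul_eq_zero.1 ht with h4 | h4
    · rcases mul_eq_zero.1 h4 with h4 | h4
      · exact Or.inl (sub_eq_zero.1 h4)
      · exact Or.inr (Or.inl (sub_eq_zero.1 h4))
    · exact Or.inr (Or.inr (sub_eq_zero.1 h4))

section three

variable {L : Type*} {R : L → Prop} {t1 t2 t3 : L}

lemma Three.third (h : Three R t1 t2 t3) {t u : L} (ht : R t) (hu : R u) (htu : t ≠ u) :
    ∃ w, R w ∧ w ≠ t ∧ w ≠ u ∧ ∀ x, R x → x = t ∨ x = u ∨ x = w := by
  rcases h.all t ht with rfl | rfl | rfl <;> rcases h.all u hu with rfl | rfl | rfl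
  · exact absurd rfl htu
  · exact ⟨t3, h.r3, h.n13.symm, h.n23.symm, fun x hx => by
      rcases h.all x hx with h1 | h1 | h1 <;> tauto⟩
  · exact ⟨t2, h.r2, h.n12.symm, h.n23, fun x hx => by
      rcases h.all x hx with h1 | h1 | h1 <;> tauto⟩
  · exact ⟨t3, h.r3, h.n23.symm, h.n13.symm, fun x hx => by
      rcases h.all x hx with h1 | h1 | h1 <;> tauto⟩
  · exact absurd rfl htu
  · exact ⟨t1, h.r1, h.n12, h.n13, fun x hx => by
      rcases h.all x hx with h1 | h1 | h1 <;> tauto⟩
  · exact ⟨t2, h.r2, h.n23, h.n12.symm, fun x hx => by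
      rcases h.all x hx with h1 | h1 | h1 <;> tauto⟩
  · exact ⟨t1, h.r1, h.n13, h.n12, fun x hx => by
      rcases h.all x hx with h1 | h1 | h1 <;> tauto⟩
  · exact absurd rfl htu

lemma sq_fix (h : Three R t1 t2 t3) {g : L → L} (hg : Function.Injective g)
    (hR : ∀ t, R t → R (g t)) {t : L} (ht : R t) (hgt : g t = t) : ∀ u, R u → g (g u) = u := by
  intro u hu
  by_cases h1 : t = u
  · subst h1
    rw [hgt, hgt]
  · obtain ⟨w, hw, hwt, hwu, hall⟩ := h.third ht hu h1
    have h2 : g u ≠ t := fun h3 => h1 (hg (hgt.trans h3.symm))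
    rcases hall _ (hR u hu) with h3 | h3 | h3
    · exact absurd h3 h2
    · rw [h3, h3]
    · rw [h3]
      rcases hall _ (hR w hw) with h4 | h4 | h4
      · exact absurd (hg (h4.trans hgt.symm)) hwt
      · exact h4
      · exact absurd (hg (h4.trans h3.symm)) hwu

lemma sq_move (h : Three R t1 t2 t3) {g : L → L} (hg : Function.Injective g)
    (hR : ∀ t, R t → R (g t)) (hm : ∀ t, R t → g t ≠ t) : ∀ u, R u → g (g u) ≠ u := by
  intro u hu h1
  obtain ⟨w, hw, hwt, hwu, hall⟩ := h.third hu (hR u hu) (hm u hu).symm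
  rcases hall _ (hR w hw) with h4 | h4 | h4
  · rw [← h1] at h4
    exact hwu (hg h4)
  · exact hwt (hg h4)
  · exact hm w hw h4

end three

/-- an automorphism that moves the roots -/
theorem move_one {F : Type} [Field F] [CharZero F] {a b : F} (hΔ : 4 * a ^ 3 + 27 * b ^ 2 ≠ 0)
    (h : ∀ x : F, ¬ Ro a b x) :
    ∃ g : GF F, ∀ t : AlgebraicClosure F, Ro (algebraMap F (AlgebraicClosure F) a)
      (algebraMap F (AlgebraicClosure F) b) t → g t ≠ t := by
  have hΔ' : 4 * (algebraMap F (AlgebraicClosure F) a) ^ 3 +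
      27 * (algebraMap F (AlgebraicClosure F) b) ^ 2 ≠ 0 := by
    intro h1
    apply hΔ
    apply (algebraMap F (AlgebraicClosure F)).injective
    simp only [map_add, map_mul, map_pow, map_ofNat, map_zero]
    exact h1
  obtain ⟨t1, t2, t3, h3⟩ := three_of hΔ'
  let p : Polynomial F := Polynomial.X ^ 3 + Polynomial.C a * Polynomial.X +
    Polynomial.C b
  have hm : p.Monic := by
    simp only [p]
    monicity!
  have hdeg : p.natDegree = 3 := by
    simp only [p]
    compute_degree!
  have hirr : Irreducible p := by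
    rw [hm.irreducible_iff_roots_eq_zero_of_degree_le_three (by omega) (by omega)]
    rw [Multiset.eq_zero_iff_forall_notMem]
    intro x hx
    rw [Polynomial.mem_roots hm.ne_zero] at hx
    apply h x
    simpa [p, Ro] using hx
  have hcj : ∀ t s : AlgebraicClosure F, Ro (algebraMap F (AlgebraicClosure F) a)
      (algebraMap F (AlgebraicClosure F) b) t → Ro (algebraMap F (AlgebraicClosure F) a)
      (algebraMap F (AlgebraicClosure F) b) s → ∃ g : GF F, g t = s := by
    intro t s ht hs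
    unfold Ro at ht hs
    refine conj_root hirr hm ?_ ?_
    · simpa [p] using ht
    · simpa [p] using hs
  have him : ∀ (g : GF F) (t : AlgebraicClosure F), Ro (algebraMap F (AlgebraicClosure F) a)
      (algebraMap F (AlgebraicClosure F) b) t → Ro (algebraMap F (AlgebraicClosure F) a)
      (algebraMap F (AlgebraicClosure F) b) (g t) := by
    intro g t ht
    have := congrArg g ht
    simp only [map_add, map_mul, map_pow, map_zero, AlgEquiv.commutes] at this
    exact this
  by_contra hcon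
  push Not at hcon
  obtain ⟨g, hg⟩ := hcj t1 t2 h3.r1 h3.r2
  obtain ⟨k, hk⟩ := hcj t1 t3 h3.r1 h3.r3
  have g3 : g t3 = t3 := by
    obtain ⟨t, ht, hgt⟩ := hcon g
    rcases h3.all t ht with rfl | rfl | rfl
    · exact absurd (hgt.symm.trans hg) h3.n12
    · exact absurd (g.injective (hg.trans hgt.symm)) h3.n12
    · exact hgt
  have g2 : g t2 = t1 := by
    rcases h3.all _ (him g t2 h3.r2) with h4 | h4 | h4
    · exact h4
    · exact absurd (g.injective (hg.trans h4.symm)) h3.n12
    · exact absurd (g.injective (h4.trans g3.symm)) h3.n23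
  have k2 : k t2 = t2 := by
    obtain ⟨t, ht, hgt⟩ := hcon k
    rcases h3.all t ht with rfl | rfl | rfl
    · exact absurd (hgt.symm.trans hk) h3.n13
    · exact hgt
    · exact absurd (k.injective (hk.trans hgt.symm)) h3.n13
  have k3 : k t3 = t1 := by
    rcases h3.all _ (him k t3 h3.r3) with h4 | h4 | h4
    · exact h4
    · exact absurd (k.injective (h4.trans k2.symm)) h3.n23.symm
    · exact absurd (k.injective (hk.trans h4.symm)) h3.n13
  obtain ⟨t, ht, hgt⟩ := hcon (g * k)
  have e : (g * k) t = g (k t) := rfl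
  rw [e] at hgt
  rcases h3.all t ht with rfl | rfl | rfl
  · rw [hk, g3] at hgt
    exact h3.n13 hgt.symm
  · rw [k2, g2] at hgt
    exact h3.n12 hgt
  · rw [k3, hg] at hgt
    exact h3.n23 hgt

/-- the same in the absolute Galois group of `ℚ` -/
theorem move_oneK {K : Type} [Field K] [NumberField K] {a b : K}
    (hΔ : 4 * a ^ 3 + 27 * b ^ 2 ≠ 0) (h : ∀ x : K, ¬ Ro a b x) :
    ∃ g : GF ℚ, g ∈ Pool.Agent.Y142.HH ℚ K ∧
      ∀ t : AlgebraicClosure ℚ, Ro (emb ℚ K a) (emb ℚ K b) t → g t ≠ t := by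
  obtain ⟨g, hg⟩ := move_one hΔ h
  let g' : GF ℚ := (io ℚ K).symm.trans ((g.restrictScalars ℚ).trans (io ℚ K))
  have hg' : ∀ t, g' t = io ℚ K (g ((io ℚ K).symm t)) := fun _ => rfl
  refine ⟨g', ?_, fun t ht => ?_⟩
  · rw [mem_HH]
    intro x
    rw [hg', emb_apply, AlgEquiv.symm_apply_apply, g.commutes]
  · rw [hg']
    intro h1
    refine hg ((io ℚ K).symm t) ?_ ?_
    · have := congrArg (io ℚ K).symm ht
      rw [emb_apply, emb_apply] at this
      simp only [map_add, map_mul, map_pow, map_zero, AlgEquiv.symm_apply_apply] at this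
      exact this
    · have h2 := congrArg (io ℚ K).symm h1
      rwa [AlgEquiv.symm_apply_apply] at h2

end Pool.Agent.K4H55.BD
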