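import Pool.Agent.K4H55.BD.Cub

/-!
The density of the admissible primes.
-/

set_option autoImplicit false

open NumberField IsDedekindDomain Filter Topology ComplexConjugate

namespace Pool.Agent.K4H55.BD

open Pool.Agent.W569.FM Pool.Agent.Y142
open Pool.Agent.K4H55.BI (IQ trace_iq norm_iq)
open Pool.Agent.K4H55.AB (X0 density_lower remove cA_mono conj_root conj_mem_HH mem_HH_all frob_pow)

variable {K : Type} [Field K] [NumberField K] {σ : K →+* ℂ} {δ : K}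

/-- the conjugation of `K` -/
noncomputable def cjK (h : IQ K σ δ) : K →ₐ[ℚ] K where
  toFun x := algebraMap ℚ K (Algebra.trace ℚ K x) - x
  map_one' := σ.injective (by
    have h1 := trace_iq h (1 : K)
    simp only [map_sub, map_one]
    have e : σ (algebraMap ℚ K (Algebra.trace ℚ K 1)) = ((Algebra.trace ℚ K 1 : ℚ) : ℂ) := by simp
    rw [e, h1]
    simp)
  map_mul' x y := σ.injective (by
    have e : ∀ z : K, σ (algebraMap ℚ K (Algebra.trace ℚ K z) - z) = conj (σ z) := fun z => by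
      have h1 := trace_iq h z
      have e : σ (algebraMap ℚ K (Algebra.trace ℚ K z)) = ((Algebra.trace ℚ K z : ℚ) : ℂ) := by simp
      rw [map_sub, e, h1]
      ring
    rw [map_mul σ, e, e, e, map_mul, map_mul])
  map_zero' := by simp
  map_add' x y := by simp only [map_add]; ring
  commutes' r := σ.injective (by
    have h1 := trace_iq h (algebraMap ℚ K r)
    have e : σ (algebraMap ℚ K (Algebra.trace ℚ K (algebraMap ℚ K r))) =
        ((Algebra.trace ℚ K (algebraMap ℚ K r) : ℚ) : ℂ) := by simp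
    rw [map_sub, e, h1]
    simp)

lemma sg_cjK (h : IQ K σ δ) (z : K) : σ (cjK h z) = conj (σ z) := by
  have h1 := trace_iq h z
  have e : σ (algebraMap ℚ K (Algebra.trace ℚ K z)) = ((Algebra.trace ℚ K z : ℚ) : ℂ) := by simp
  show σ (algebraMap ℚ K (Algebra.trace ℚ K z) - z) = _
  rw [map_sub, e, h1]
  ring

lemma cjK_cjK (h : IQ K σ δ) (z : K) : cjK h (cjK h z) = z :=
  σ.injective (by rw [sg_cjK, sg_cjK, Complex.conj_conj])

lemma coe_tau (h : IQ K σ δ) (x : 𝓞 K) : (tau h x : K) = cjK h x :=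
  σ.injective (by rw [sg_cjK]; exact sg_tau h x)

/-- the embeddings of `K` -/
lemma emb_or (h : IQ K σ δ) (φ : K →ₐ[ℚ] AlgebraicClosure ℚ) :
    φ = emb ℚ K ∨ φ = (emb ℚ K).comp (cjK h) := by
  classical
  have key : ∀ e1 e2 : K →ₐ[ℚ] AlgebraicClosure ℚ, e1 ≠ e2 → φ = e1 ∨ φ = e2 := by
    intro e1 e2 hne
    have hcard : Nat.card (K →ₐ[ℚ] AlgebraicClosure ℚ) = 2 := by
      rw [Nat.card_eq_fintype_card, AlgHom.card, h.deg]
    have huniv : ({e1, e2} : Set (K →ₐ[ℚ] AlgebraicClosure ℚ)) = Set.univ := by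
      rw [Set.eq_univ_iff_ncard, Set.ncard_pair hne, hcard]
    have h1 : φ ∈ ({e1, e2} : Set (K →ₐ[ℚ] AlgebraicClosure ℚ)) := by
      rw [huniv]
      exact Set.mem_univ φ
    exact h1
  refine key _ _ ?_
  intro he
  obtain ⟨x, hx⟩ := h.cplx
  have h1 : emb ℚ K x = emb ℚ K (cjK h x) := congrArg (fun g : K →ₐ[ℚ] _ => g x) he
  have h2 : x = cjK h x := (emb ℚ K).injective h1
  apply hx
  rw [← sg_cjK h, ← h2]

lemma tau_emb (h : IQ K σ δ) (τ : GF ℚ) :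
    (∀ x, τ (emb ℚ K x) = emb ℚ K x) ∨ (∀ x, τ (emb ℚ K x) = emb ℚ K (cjK h x)) := by
  rcases emb_or h ((AlgEquiv.toAlgHom τ).comp (emb ℚ K)) with h1 | h1
  · exact Or.inl fun x => congrArg (fun g : K →ₐ[ℚ] _ => g x) h1
  · exact Or.inr fun x => congrArg (fun g : K →ₐ[ℚ] _ => g x) h1

lemma isGal (h : IQ K σ δ) : IsGalois ℚ K := by
  have : Algebra.IsQuadraticExtension ℚ K := { finrank_eq_two' := h.deg }
  infer_instance

/-- an automorphism over `K` that moves the roots of both conjugate polynomials -/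
theorem move_both (h : IQ K σ δ) {a b : K} (hΔ : 4 * a ^ 3 + 27 * b ^ 2 ≠ 0)
    (hr : ∀ x : K, ¬ Ro a b x) :
    ∃ g : GF ℚ, g ∈ Pool.Agent.Y142.HH ℚ K ∧
      ∀ τ : GF ℚ, ∀ t : AlgebraicClosure ℚ, Ro (τ (emb ℚ K a)) (τ (emb ℚ K b)) t → g t ≠ t := by
  have hΔ2 : 4 * (cjK h a) ^ 3 + 27 * (cjK h b) ^ 2 ≠ 0 := by
    intro h1
    have h2 := congrArg (cjK h) h1
    simp only [map_add, map_mul, map_pow, map_ofNat, map_zero, cjK_cjK] at h2
    exact hΔ h2
  have hr2 : ∀ x : K, ¬ Ro (cjK h a) (cjK h b) x := by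
    intro x hx
    have h2 := congrArg (cjK h) hx
    simp only [map_add, map_mul, map_pow, map_zero, cjK_cjK] at h2
    exact hr _ h2
  obtain ⟨g1, hg1, hm1⟩ := move_oneK hΔ hr
  obtain ⟨g2, hg2, hm2⟩ := move_oneK hΔ2 hr2
  have hE : ∀ {α β : K}, 4 * α ^ 3 + 27 * β ^ 2 ≠ 0 → ∃ t1 t2 t3 : AlgebraicClosure ℚ,
      Three (Ro (emb ℚ K α) (emb ℚ K β)) t1 t2 t3 := by
    intro α β hαβ
    apply three_of
    intro h1
    apply hαβ
    apply (emb ℚ K).injective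
    simp only [map_add, map_mul, map_pow, map_ofNat, map_zero]
    exact h1
  obtain ⟨t1, t2, t3, hT⟩ := hE hΔ
  obtain ⟨s1, s2, s3, hS⟩ := hE hΔ2
  have him : ∀ {g : GF ℚ}, g ∈ Pool.Agent.Y142.HH ℚ K → ∀ {α β : K} (t : AlgebraicClosure ℚ),
      Ro (emb ℚ K α) (emb ℚ K β) t → Ro (emb ℚ K α) (emb ℚ K β) (g t) := by
    intro g hg α β t ht
    have := congrArg g ht
    simp only [map_add, map_mul, map_pow, map_zero, mem_HH.1 hg] at this
    exact this
  suffices hsuf : ∃ g : GF ℚ, g ∈ Pool.Agent.Y142.HH ℚ K ∧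
      (∀ t : AlgebraicClosure ℚ, Ro (emb ℚ K a) (emb ℚ K b) t → g t ≠ t) ∧
      ∀ t : AlgebraicClosure ℚ, Ro (emb ℚ K (cjK h a)) (emb ℚ K (cjK h b)) t → g t ≠ t by
    obtain ⟨g, hg, h1, h2⟩ := hsuf
    refine ⟨g, hg, fun τ t ht => ?_⟩
    rcases tau_emb h τ with h3 | h3
    · rw [h3, h3] at ht
      exact h1 t ht
    · rw [h3, h3] at ht
      exact h2 t ht
  by_cases c1 : ∀ t : AlgebraicClosure ℚ, Ro (emb ℚ K (cjK h a)) (emb ℚ K (cjK h b)) t → g1 t ≠ t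
  · exact ⟨g1, hg1, hm1, c1⟩
  by_cases c2 : ∀ t : AlgebraicClosure ℚ, Ro (emb ℚ K a) (emb ℚ K b) t → g2 t ≠ t
  · exact ⟨g2, hg2, c2, hm2⟩
  push Not at c1 c2
  obtain ⟨s, hs, hgs⟩ := c1
  obtain ⟨t, ht, hgt⟩ := c2
  have f1 := sq_fix hS g1.injective (him hg1) hs hgs
  have f2 := sq_fix hT g2.injective (him hg2) ht hgt
  have m1 := sq_move hT g1.injective (him hg1) hm1
  have m2 := sq_move hS g2.injective (him hg2) hm2
  refine ⟨g1 * g1 * (g2 * g2), Subgroup.mul_mem _ (Subgroup.mul_mem _ hg1 hg1)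
    (Subgroup.mul_mem _ hg2 hg2), fun u hu => ?_, fun u hu => ?_⟩
  · show g1 (g1 (g2 (g2 u))) ≠ u
    rw [f2 u hu]
    exact m1 u hu
  · show g1 (g1 (g2 (g2 u))) ≠ u
    rw [f1 _ (him hg2 _ (him hg2 _ hu))]
    exact m2 u hu

lemma ro_integral {α β : OO ℚ} {t : AlgebraicClosure ℚ}
    (ht : Ro (α : AlgebraicClosure ℚ) (β : AlgebraicClosure ℚ) t) : IsIntegral ℤ t := by
  have h1 : IsIntegral (OO ℚ) t := by
    refine ⟨Polynomial.X ^ 3 + Polynomial.C α * Polynomial.X + Polynomial.C β, ?_, ?_⟩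
    · monicity!
    · unfold Ro at ht
      rw [Polynomial.eval₂_add, Polynomial.eval₂_add, Polynomial.eval₂_mul, Polynomial.eval₂_pow,
        Polynomial.eval₂_X, Polynomial.eval₂_C, Polynomial.eval₂_C]
      exact ht
  exact isIntegral_trans t h1

section frob

variable {a b : 𝓞 K} {q : ℕ} {P : Ideal (OO ℚ)} {g : GF ℚ}

theorem no_rootK (hq : q.Prime) (hP : P.IsMaximal) (hqP : (q : OO ℚ) ∈ P) (hg : FrobAt q P g)
    (hK : ∀ τ : GF ℚ, τ⁻¹ * g * τ ∈ Pool.Agent.Y142.HH ℚ K)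
    (hmove : ∀ τ : GF ℚ, ∀ t : AlgebraicClosure ℚ,
      Ro (τ (emb ℚ K (a : K))) (τ (emb ℚ K (b : K))) t → g t ≠ t)
    (v : HeightOneSpectrum (𝓞 K)) (hv : (q : 𝓞 K) ∈ v.asIdeal)
    (hΔ : 2 * (4 * a ^ 3 + 27 * b ^ 2) ∉ v.asIdeal) (X : 𝓞 K) :
    X ^ 3 + a * X + b ∉ v.asIdeal := by
  intro hX
  obtain ⟨τ, rfl⟩ := vv_surjective hq hP hqP v hv
  rw [mem_vv] at hX hΔ
  set x : OO ℚ := τ • ioO K (algebraMap (𝓞 K) (OO K) X) with hx
  set α : OO ℚ := τ • ioO K (algebraMap (𝓞 K) (OO K) a) with hα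
  set β : OO ℚ := τ • ioO K (algebraMap (𝓞 K) (OO K) b) with hβ
  have hnum : ∀ m : ℕ, τ • (m : OO ℚ) = (m : OO ℚ) := fun m =>
    map_natCast (MulSemiringAction.toRingHom (GF ℚ) (OO ℚ) τ) m
  have e1 : τ • ioO K (algebraMap (𝓞 K) (OO K) (X ^ 3 + a * X + b)) = x ^ 3 + α * x + β := by
    simp only [map_add, map_mul, map_pow, smul_add, smul_mul', smul_pow', hx, hα, hβ]
  have e2 : τ • ioO K (algebraMap (𝓞 K) (OO K) (2 * (4 * a ^ 3 + 27 * b ^ 2))) =
      2 * (4 * α ^ 3 + 27 * β ^ 2) := by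
    have n2 : τ • (2 : OO ℚ) = 2 := by exact_mod_cast hnum 2
    have n4 : τ • (4 : OO ℚ) = 4 := by exact_mod_cast hnum 4
    have n27 : τ • (27 : OO ℚ) = 27 := by exact_mod_cast hnum 27
    simp only [map_add, map_mul, map_pow, map_ofNat, smul_add, smul_mul', smul_pow', hα, hβ, n2,
      n4, n27]
  rw [e1] at hX
  rw [e2] at hΔ
  have hfixO : ∀ Y : 𝓞 K, g • (τ • ioO K (algebraMap (𝓞 K) (OO K) Y)) =
      τ • ioO K (algebraMap (𝓞 K) (OO K) Y) := by
    intro Y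
    have h2 : g * τ = τ * (τ⁻¹ * g * τ) := by group
    rw [smul_smul, h2, ← smul_smul, smul_ioO_of_mem (hK τ)]
  have hfix : g • x = x := hfixO X
  have hcα : (α : AlgebraicClosure ℚ) = τ (emb ℚ K (a : K)) := rfl
  have hcβ : (β : AlgebraicClosure ℚ) = τ (emb ℚ K (b : K)) := rfl
  obtain ⟨t1, t2, t3, h1, h2, h3, hsp⟩ := ro_split (α : AlgebraicClosure ℚ) (β : AlgebraicClosure ℚ)
  let T : (t : AlgebraicClosure ℚ) → Ro (α : AlgebraicClosure ℚ) (β : AlgebraicClosure ℚ) t →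
    OO ℚ := fun t ht => ⟨t, ro_integral ht⟩
  have hfac : x ^ 3 + α * x + β = (x - T t1 h1) * (x - T t2 h2) * (x - T t3 h3) := by
    apply RingOfIntegers.ext
    have := hsp (x : AlgebraicClosure ℚ)
    simp only [map_add, map_mul, map_pow, map_sub]
    exact this
  rw [hfac] at hX
  have hxT : ∃ (t : AlgebraicClosure ℚ) (ht : Ro (α : AlgebraicClosure ℚ)
      (β : AlgebraicClosure ℚ) t), x - T t ht ∈ P := by
    rcases hP.isPrime.mem_or_mem hX with h | h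
    · rcases hP.isPrime.mem_or_mem h with h | h
      · exact ⟨t1, h1, h⟩
      · exact ⟨t2, h2, h⟩
    · exact ⟨t3, h3, h⟩
  obtain ⟨t, ht, hxt⟩ := hxT
  have hgα : g (α : AlgebraicClosure ℚ) = α := congrArg (fun y : OO ℚ => (y : AlgebraicClosure ℚ))
    (hfixO a)
  have hgβ : g (β : AlgebraicClosure ℚ) = β := congrArg (fun y : OO ℚ => (y : AlgebraicClosure ℚ))
    (hfixO b)
  have hgt : Ro (α : AlgebraicClosure ℚ) (β : AlgebraicClosure ℚ) (g t) := by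
    have := congrArg g ht
    simp only [map_add, map_mul, map_pow, map_zero, hgα, hgβ] at this
    exact this
  have h4 : T t ht ^ q - x ^ q ∈ P := by
    have := P.neg_mem hxt
    rw [neg_sub] at this
    exact P.mem_of_dvd (sub_dvd_pow_sub_pow _ _ _) this
  have h5 := hg x
  rw [hfix] at h5
  have h6 := hg (T t ht)
  have h7 : g • T t ht - T t ht ∈ P := by
    have h8 : g • T t ht - T t ht = (g • T t ht - T t ht ^ q) +
        (T t ht ^ q - x ^ q) - (x - x ^ q) + (x - T t ht) := by ring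
    rw [h8]
    exact P.add_mem (P.sub_mem (P.add_mem h6 h4) h5) hxt
  have hG : Ro α β (g • T t ht : OO ℚ) := by
    apply RingOfIntegers.ext
    simp only [map_add, map_mul, map_pow, map_zero]
    exact hgt
  have hT : Ro α β (T t ht : OO ℚ) := by
    apply RingOfIntegers.ext
    simp only [map_add, map_mul, map_pow, map_zero]
    exact ht
  have hne : (g • T t ht : OO ℚ) ≠ T t ht := by
    intro h
    refine hmove τ t ?_ (congrArg (fun y : OO ℚ => (y : AlgebraicClosure ℚ)) h)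
    rw [← hcα, ← hcβ]
    exact ht
  apply hΔ
  rw [ro_disc hG hT hne]
  exact P.mul_mem_right _ h7

theorem deg_one (hq : q.Prime) (hP : P.IsMaximal) (hqP : (q : OO ℚ) ∈ P) (hg : FrobAt q P g)
    (hK : ∀ τ : GF ℚ, τ⁻¹ * g * τ ∈ Pool.Agent.Y142.HH ℚ K)
    (v : HeightOneSpectrum (𝓞 K)) (hv : (q : 𝓞 K) ∈ v.asIdeal) :
    Ideal.absNorm v.asIdeal = q := by
  refine absNorm_eq_of_pow hq hv fun X => ?_
  obtain ⟨τ, rfl⟩ := vv_surjective hq hP hqP v hv
  rw [mem_vv]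
  have hfix : g • (τ • ioO K (algebraMap (𝓞 K) (OO K) X)) =
      τ • ioO K (algebraMap (𝓞 K) (OO K) X) := by
    have h2 : g * τ = τ * (τ⁻¹ * g * τ) := by group
    rw [smul_smul, h2, ← smul_smul, smul_ioO_of_mem (hK τ)]
  have h5 := hg (τ • ioO K (algebraMap (𝓞 K) (OO K) X))
  rw [hfix] at h5
  have e : τ • ioO K (algebraMap (𝓞 K) (OO K) (X ^ q - X)) =
      -(τ • ioO K (algebraMap (𝓞 K) (OO K) X) - (τ • ioO K (algebraMap (𝓞 K) (OO K) X)) ^ q) := by
    simp only [map_sub, map_pow, smul_sub, smul_pow', neg_sub]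
  rw [e]
  exact P.neg_mem h5

end frob

/-- the admissible primes of the curve -/
def QE (h : IQ K σ δ) (a b n : 𝓞 K) : Set ℕ :=
  {q | Spl h q ∧ ∀ v : HeightOneSpectrum (𝓞 K), (q : 𝓞 K) ∈ v.asIdeal →
    2 * (4 * a ^ 3 + 27 * b ^ 2) ∉ v.asIdeal ∧ n ∉ v.asIdeal ∧
      ∀ X : 𝓞 K, X ^ 3 + a * X + b ∉ v.asIdeal}

lemma bad_fin (h : IQ K σ δ) {x : 𝓞 K} (hx : x ≠ 0) :
    {q : ℕ | q.Prime ∧ ∃ v : HeightOneSpectrum (𝓞 K), (q : 𝓞 K) ∈ v.asIdeal ∧
      x ∈ v.asIdeal}.Finite := by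
  refine Set.Finite.subset (Set.finite_Iic (Algebra.norm ℤ x).natAbs) ?_
  rintro q ⟨hq, v, hqv, hxv⟩
  have h1 : ((Algebra.norm ℤ x : ℤ) : 𝓞 K) ∈ v.asIdeal := by
    rw [← mul_tau h]
    exact v.asIdeal.mul_mem_right _ hxv
  have h2 := (int_mem hq hqv).1 h1
  refine Nat.le_of_dvd (Int.natAbs_pos.2 (Algebra.norm_ne_zero_iff.2 hx)) ?_
  exact Int.natCast_dvd.1 h2

theorem densK (h : IQ K σ δ) {a b n : 𝓞 K} (hΔ : 4 * a ^ 3 + 27 * b ^ 2 ≠ 0) (hn : n ≠ 0)
    (hr : ∀ x : K, ¬ Ro (a : K) (b : K) x) :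
    ∃ d : ℝ, 0 < d ∧ ∀ B : Set ℕ, B.Finite → ∀ᶠ N : ℕ in atTop,
      d * (N / Real.log N) ≤ AB.Cnt.cA (QE h a b n \ B) N := by
  classical
  have hgal := isGal h
  have hΔK : 4 * (a : K) ^ 3 + 27 * (b : K) ^ 2 ≠ 0 := by
    intro h1
    apply hΔ
    apply RingOfIntegers.ext
    simp only [map_add, map_mul, map_pow, map_ofNat, map_zero]
    exact h1
  obtain ⟨g, hgH, hg⟩ := move_both h hΔK hr
  have hgK : ∀ τ : GF ℚ, τ⁻¹ * g * τ ∈ Pool.Agent.Y142.HH ℚ K :=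
    conj_mem_HH (mem_HH_all hgH)
  let S : Set (AlgebraicClosure ℚ) := {t | Ro (emb ℚ K (a : K)) (emb ℚ K (b : K)) t ∨
    Ro (emb ℚ K (cjK h a)) (emb ℚ K (cjK h b)) t}
  have hS : S.Finite := by
    have hfin : ∀ α β : AlgebraicClosure ℚ, {t | Ro α β t}.Finite := by
      intro α β
      obtain ⟨t1, t2, t3, h1, h2, h3, hsp⟩ := ro_split α β
      refine ((Set.finite_singleton t1).union ((Set.finite_singleton t2).union
        (Set.finite_singleton t3))).subset ?_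
      intro t ht
      have ht' : Ro α β t := ht
      unfold Ro at ht'
      rw [hsp] at ht'
      rcases mul_eq_zero.1 ht' with h4 | h4
      · rcases mul_eq_zero.1 h4 with h4 | h4
        · exact Or.inl (sub_eq_zero.1 h4)
        · exact Or.inr (Or.inl (sub_eq_zero.1 h4))
      · exact Or.inr (Or.inr (sub_eq_zero.1 h4))
    exact (hfin _ _).union (hfin _ _)
  have hSf : Finite S := hS.to_subtype
  let E : IntermediateField ℚ (AlgebraicClosure ℚ) := IntermediateField.adjoin ℚ S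
  have hE : FiniteDimensional ℚ E := IntermediateField.finiteDimensional_adjoin fun t _ =>
    ((AlgebraicClosure.isAlgebraic ℚ).isAlgebraic t).isIntegral
  let W1 : Subgroup (GF ℚ) := E.fixingSubgroup
  have hW1 : IsOpen (W1 : Set (GF ℚ)) := E.fixingSubgroup_isOpen
  let W : Subgroup (GF ℚ) := W1 ⊓ Pool.Agent.Y142.HH ℚ K
  have hW : IsOpen (W : Set (GF ℚ)) := by
    have e1 : (W : Set (GF ℚ)) = (W1 : Set (GF ℚ)) ∩ (Pool.Agent.Y142.HH ℚ K : Set (GF ℚ)) := by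
      rw [Subgroup.coe_inf]
    rw [e1]
    exact hW1.inter isOpen_HH
  have hWf : Finite (GF ℚ ⧸ W) := Subgroup.quotient_finite_of_isOpen W hW
  have hWi : W.FiniteIndex := Subgroup.finiteIndex_of_finite_quotient
  have hWc : IsClosed (W : Set (GF ℚ)) := W.isClosed_of_isOpen hW
  have hU : IsOpen (W.normalCore : Set (GF ℚ)) :=
    Subgroup.isOpen_of_isClosed_of_finiteIndex _ (W.normalCore_isClosed hWc)
  obtain ⟨d, hd, h1⟩ := density_lower W.normalCore hU g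
  refine ⟨d / 2, by positivity, fun B hB => ?_⟩
  obtain ⟨x0, hx0⟩ := h.cplx
  obtain ⟨y0, hy0⟩ : ∃ y : 𝓞 K, y - tau h y ≠ 0 := by
    by_contra hcon
    push Not at hcon
    apply hx0
    obtain ⟨y, s, hs, hys⟩ := IsFractionRing.div_surjective (A := 𝓞 K) x0
    have hc : ∀ z : 𝓞 K, conj (σ z) = σ z := by
      intro z
      have := hcon z
      rw [sub_eq_zero] at this
      rw [← sg_tau h, ← this]
    rw [← hys, map_div₀, map_div₀]
    have e1 := hc y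
    have e2 := hc s
    rw [e1, e2]
  let B0 : Set ℕ := {2} ∪ ({q : ℕ | q.Prime ∧ ∃ v : HeightOneSpectrum (𝓞 K), (q : 𝓞 K) ∈ v.asIdeal ∧
      2 * (4 * a ^ 3 + 27 * b ^ 2) ∈ v.asIdeal} ∪ ({q : ℕ | q.Prime ∧ ∃ v : HeightOneSpectrum (𝓞 K),
      (q : 𝓞 K) ∈ v.asIdeal ∧ n ∈ v.asIdeal} ∪ {q : ℕ | q.Prime ∧ ∃ v : HeightOneSpectrum (𝓞 K),
      (q : 𝓞 K) ∈ v.asIdeal ∧ y0 - tau h y0 ∈ v.asIdeal}))
  have hB0 : B0.Finite := (Set.finite_singleton 2).union ((bad_fin h (mul_ne_zero two_ne_zero hΔ)).union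
    ((bad_fin h hn).union (bad_fin h hy0)))
  filter_upwards [remove hd h1 (hB.union hB0)] with N hN
  refine hN.trans ?_
  have h2 : X0 W.normalCore g \ (B ∪ B0) ⊆ QE h a b n \ B := by
    rintro q ⟨⟨hq, P, s, hP, hqP, hs, hu⟩, hqB⟩
    rw [Set.mem_union, not_or] at hqB
    refine ⟨?_, hqB.1⟩
    have hqB2 := hqB.2
    simp only [B0, Set.mem_union, Set.mem_singleton_iff, not_or] at hqB2
    obtain ⟨q2, qd, qn, qy⟩ := hqB2
    have hsW : g⁻¹ * s ∈ W := W.normalCore_le hu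
    have hsK : ∀ τ : GF ℚ, τ⁻¹ * s * τ ∈ Pool.Agent.Y142.HH ℚ K := by
      intro τ
      have h4 : τ⁻¹ * s * τ = (τ⁻¹ * g * τ) * (τ⁻¹ * (g⁻¹ * s) * τ) := by group
      rw [h4]
      refine Subgroup.mul_mem _ (hgK τ) ?_
      have h5 : τ⁻¹ * (g⁻¹ * s) * τ ∈ W := by
        have h6 := hu τ⁻¹
        rwa [inv_inv] at h6
      exact (Subgroup.mem_inf.1 h5).2
    have hsm : ∀ τ : GF ℚ, ∀ t : AlgebraicClosure ℚ,
        Ro (τ (emb ℚ K (a : K))) (τ (emb ℚ K (b : K))) t → s t ≠ t := by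
      intro τ t ht
      have htS : t ∈ S := by
        rcases tau_emb h τ with h3 | h3
        · left
          rw [h3, h3] at ht
          exact ht
        · right
          rw [h3, h3] at ht
          exact ht
      have h5 : (g⁻¹ * s) t = t := by
        have h6 := (IntermediateField.mem_fixingSubgroup_iff E (g⁻¹ * s)).1
          (Subgroup.mem_inf.1 hsW).1
        exact h6 t (IntermediateField.subset_adjoin ℚ S htS)
      have h6 : s t = g t := by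
        have h7 : g ((g⁻¹ * s) t) = s t := by
          show (g * (g⁻¹ * s)) t = s t
          rw [mul_inv_cancel_left]
        rw [← h7, h5]
      rw [h6]
      exact hg τ t ht
    refine ⟨⟨hq, q2, fun v hv => deg_one hq hP hqP hs hsK v hv, fun v hv => ⟨y0, fun hy => ?_⟩⟩,
      fun v hv => ?_⟩
    · exact qy ⟨hq, v, hv, hy⟩
    · have hdv : 2 * (4 * a ^ 3 + 27 * b ^ 2) ∉ v.asIdeal := fun hh => qd ⟨hq, v, hv, hh⟩
      exact ⟨hdv, fun hh => qn ⟨hq, v, hv, hh⟩,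
        fun X => no_rootK hq hP hqP hs hsK hsm v hv hdv X⟩
  exact_mod_cast cA_mono h2 N

end Pool.Agent.K4H55.BD
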