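import Pool.Agent.K4H55.BD.Pl

/-!
The `L`-function of the twist of an elliptic curve.
-/

set_option autoImplicit false

namespace Pool.Agent.K4H55.BD

open NumberField IsDedekindDomain ComplexConjugate
open Pool.Agent.K4H55.BI (IQ BF NVT Adm sym chiT gen gen_span gen_dvd gen_prime efac)
open Pool.Agent.Y18.BSD (dd disc dd_ne_zero recip)

section count

variable {F : Type} [Field F]

/-- the number of the solutions -/
noncomputable def nn (a b : F) : ℕ := Nat.card {x : F × F // x.2 ^ 2 = x.1 ^ 3 + a * x.1 + b}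

lemma nn_eq [Fintype F] [DecidableEq F] (hF : ringChar F ≠ 2) (a b : F) :
    (nn a b : ℤ) = Fintype.card F + ∑ x : F, quadraticChar F (x ^ 3 + a * x + b) := by
  classical
  have h1 : nn a b = ∑ x : F, ({y : F | y ^ 2 = x ^ 3 + a * x + b} : Set F).toFinset.card := by
    unfold nn
    rw [Nat.card_eq_fintype_card]
    have e : {x : F × F // x.2 ^ 2 = x.1 ^ 3 + a * x.1 + b} ≃
        Σ x : F, {y : F // y ^ 2 = x ^ 3 + a * x + b} :=
      { toFun := fun z => ⟨z.1.1, ⟨z.1.2, z.2⟩⟩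
        invFun := fun z => ⟨(z.1, z.2.1), z.2.2⟩
        left_inv := fun z => rfl
        right_inv := fun z => rfl }
    rw [Fintype.card_congr e, Fintype.card_sigma]
    refine Finset.sum_congr rfl fun x _ => ?_
    rw [Set.toFinset_card]
    rfl
  rw [h1]
  push_cast
  have h2 : ∀ x : F, ((({y : F | y ^ 2 = x ^ 3 + a * x + b} : Set F).toFinset.card : ℕ) : ℤ) =
      quadraticChar F (x ^ 3 + a * x + b) + 1 := fun x => quadraticChar_card_sqrts hF _
  rw [Finset.sum_congr rfl fun x _ => h2 x, Finset.sum_add_distrib]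
  simp
  ring

/-- the twist -/
lemma nn_twist [Fintype F] [DecidableEq F] (hF : ringChar F ≠ 2) (a b : F) {D : F} (hD : D ≠ 0) :
    (nn (a * D ^ 2) (b * D ^ 3) : ℤ) - Fintype.card F =
      quadraticChar F D * ((nn a b : ℤ) - Fintype.card F) := by
  rw [nn_eq hF, nn_eq hF, add_sub_cancel_left, add_sub_cancel_left, Finset.mul_sum]
  have h1 : ∑ x : F, quadraticChar F (x ^ 3 + a * D ^ 2 * x + b * D ^ 3) =
      ∑ x : F, quadraticChar F ((D * x) ^ 3 + a * D ^ 2 * (D * x) + b * D ^ 3) :=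
    (Fintype.sum_equiv (Equiv.mulLeft₀ D hD) _ _ fun x => rfl).symm
  rw [h1]
  refine Finset.sum_congr rfl fun x _ => ?_
  have e : (D * x) ^ 3 + a * D ^ 2 * (D * x) + b * D ^ 3 = D ^ 2 * (D * (x ^ 3 + a * x + b)) := by
    ring
  rw [e, map_mul, map_mul, quadraticChar_sq_one' hD, one_mul]

end count

section places

variable {K : Type} [Field K] [NumberField K] {σ : K →+* ℂ} {δ : K}

/-- the number of the affine points over the residue field -/
noncomputable def pv (a b : 𝓞 K) (v : HeightOneSpectrum (𝓞 K)) : ℕ :=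
  Nat.card {x : (𝓞 K ⧸ v.asIdeal) × (𝓞 K ⧸ v.asIdeal) //
    x.2 ^ 2 = x.1 ^ 3 + (Ideal.Quotient.mk v.asIdeal a) * x.1 + (Ideal.Quotient.mk v.asIdeal b)}

lemma char_ne_two {v : HeightOneSpectrum (𝓞 K)} (h2 : (2 : 𝓞 K) ∉ v.asIdeal) :
    ringChar (𝓞 K ⧸ v.asIdeal) ≠ 2 := by
  intro hc
  apply h2
  rw [← Ideal.Quotient.eq_zero_iff_mem]
  have h3 : ((ringChar (𝓞 K ⧸ v.asIdeal) : ℕ) : 𝓞 K ⧸ v.asIdeal) = 0 := ringChar.Nat.cast_ringChar
  rw [hc] at h3
  rw [map_ofNat]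
  exact_mod_cast h3

/-- points of the twist over the residue field -/
theorem pv_twist {v : HeightOneSpectrum (𝓞 K)} (h2 : (2 : 𝓞 K) ∉ v.asIdeal) (a b : 𝓞 K) {D : 𝓞 K}
    (hD : D ∉ v.asIdeal) :
    ((Ideal.absNorm v.asIdeal : ℂ) - pv (a * D ^ 2) (b * D ^ 3) v) =
      sym v D * ((Ideal.absNorm v.asIdeal : ℂ) - pv a b v) := by
  classical
  have hmax : v.asIdeal.IsMaximal := v.isMaximal
  letI : Field (𝓞 K ⧸ v.asIdeal) := Ideal.Quotient.field v.asIdeal
  have hfin : Finite (𝓞 K ⧸ v.asIdeal) := Ideal.finiteQuotientOfFreeOfNeBot _ v.ne_bot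
  letI : Fintype (𝓞 K ⧸ v.asIdeal) := Fintype.ofFinite _
  have hD0 : (Ideal.Quotient.mk v.asIdeal D) ≠ 0 := by
    rwa [Ne, Ideal.Quotient.eq_zero_iff_mem]
  have h1 := nn_twist (char_ne_two h2) (Ideal.Quotient.mk v.asIdeal a)
    (Ideal.Quotient.mk v.asIdeal b) hD0
  have hcard : Ideal.absNorm v.asIdeal = Fintype.card (𝓞 K ⧸ v.asIdeal) := by
    rw [Ideal.absNorm_apply, Submodule.cardQuot_apply, Nat.card_eq_fintype_card]
  have hp1 : pv a b v = nn (Ideal.Quotient.mk v.asIdeal a) (Ideal.Quotient.mk v.asIdeal b) := rfl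
  have hp2 : pv (a * D ^ 2) (b * D ^ 3) v = nn ((Ideal.Quotient.mk v.asIdeal a) *
      (Ideal.Quotient.mk v.asIdeal D) ^ 2) ((Ideal.Quotient.mk v.asIdeal b) *
      (Ideal.Quotient.mk v.asIdeal D) ^ 3) := by
    unfold pv nn
    simp only [map_mul, map_pow]
  have hsym : sym v D = ((quadraticChar (𝓞 K ⧸ v.asIdeal) (Ideal.Quotient.mk v.asIdeal D) : ℤ) : ℂ) := by
    rw [quadraticChar_apply, quadraticCharFun, if_neg hD0]
    unfold sym
    rw [if_neg hD]
    have h3 : (∃ y, D - y ^ 2 ∈ v.asIdeal) ↔ IsSquare (Ideal.Quotient.mk v.asIdeal D) := by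
      constructor
      · rintro ⟨y, hy⟩
        refine ⟨Ideal.Quotient.mk v.asIdeal y, ?_⟩
        rw [← Ideal.Quotient.eq_zero_iff_mem, map_sub, map_pow, sub_eq_zero] at hy
        rw [hy, sq]
      · rintro ⟨z, hz⟩
        obtain ⟨y, rfl⟩ := Ideal.Quotient.mk_surjective z
        refine ⟨y, ?_⟩
        rw [← Ideal.Quotient.eq_zero_iff_mem, map_sub, map_pow, hz, sq, sub_self]
    by_cases h4 : ∃ y, D - y ^ 2 ∈ v.asIdeal
    · rw [if_pos h4, if_pos (h3.1 h4)]
      simp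
    · rw [if_neg h4, if_neg fun h => h4 (h3.2 h)]
      simp
  rw [hsym, hp1, hp2, hcard]
  have h4 := congrArg (fun z : ℤ => (z : ℂ)) h1
  push_cast at h4
  linear_combination -h4

/-- parity -/
theorem pv_even {v : HeightOneSpectrum (𝓞 K)} (h2 : (2 : 𝓞 K) ∉ v.asIdeal) {a b : 𝓞 K}
    (h : ∀ X : 𝓞 K, X ^ 3 + a * X + b ∉ v.asIdeal) : 2 ∣ pv a b v := by
  classical
  have hfin : Finite (𝓞 K ⧸ v.asIdeal) := Ideal.finiteQuotientOfFreeOfNeBot _ v.ne_bot
  have : Fact (Nat.Prime 2) := ⟨Nat.prime_two⟩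
  have hdom : IsDomain (𝓞 K ⧸ v.asIdeal) := inferInstance
  let α : Type := {x : (𝓞 K ⧸ v.asIdeal) × (𝓞 K ⧸ v.asIdeal) //
    x.2 ^ 2 = x.1 ^ 3 + (Ideal.Quotient.mk v.asIdeal a) * x.1 + (Ideal.Quotient.mk v.asIdeal b)}
  have : Fintype α := Fintype.ofFinite _
  let f : Function.End α := fun x => ⟨(x.1.1, -x.1.2), by
    have := x.2
    simp only at this ⊢
    rw [neg_sq, this]⟩
  have hf : f ^ 2 ^ 1 = 1 := by
    rw [pow_one, pow_two]
    funext x
    apply Subtype.ext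
    show (x.1.1, - -x.1.2) = x.1
    rw [neg_neg]
  have h1 := Equiv.Perm.card_fixedPoints_modEq hf
  have h2' : Fintype.card f.fixedPoints = 0 := by
    rw [Fintype.card_eq_zero_iff]
    refine ⟨fun x => ?_⟩
    have h3 : f x.1 = x.1 := x.2
    have h4 : -x.1.1.2 = x.1.1.2 := congrArg (fun y : α => y.1.2) h3
    have h5 : (2 : 𝓞 K ⧸ v.asIdeal) ≠ 0 := by
      intro h6
      apply h2
      rw [← Ideal.Quotient.eq_zero_iff_mem]
      exact_mod_cast h6
    have h6 : x.1.1.2 = 0 := by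
      have h7 : (2 : 𝓞 K ⧸ v.asIdeal) * x.1.1.2 = 0 := by linear_combination -h4
      exact (mul_eq_zero.1 h7).resolve_left h5
    have h7 := x.1.2
    rw [h6] at h7
    obtain ⟨X, hX⟩ := Ideal.Quotient.mk_surjective x.1.1.1
    rw [← hX] at h7
    apply h X
    rw [← Ideal.Quotient.eq_zero_iff_mem]
    simp only [map_add, map_mul, map_pow]
    rw [← h7]
    ring
  rw [h2'] at h1
  have h3 : 2 ∣ Fintype.card α := (Nat.modEq_zero_iff_dvd).1 h1
  have h4 : pv a b v = Fintype.card α := Nat.card_eq_fintype_card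
  rw [h4]
  exact h3

/-- the residue degree is one or two -/
lemma nv_cases (h : IQ K σ δ) (v : HeightOneSpectrum (𝓞 K)) : ∃ p : ℕ, p.Prime ∧
    (p : 𝓞 K) ∈ v.asIdeal ∧ (Ideal.absNorm v.asIdeal = p ∨ Ideal.absNorm v.asIdeal = p ^ 2) := by
  have hN1 : Ideal.absNorm v.asIdeal ≠ 1 := by
    rw [Ne, Ideal.absNorm_eq_one_iff]
    exact v.isPrime.ne_top
  have hmem : ((Ideal.absNorm v.asIdeal : ℕ) : 𝓞 K) ∈ v.asIdeal := Ideal.absNorm_mem _
  -- a prime in `v`
  obtain ⟨p, hp, hpv⟩ : ∃ p : ℕ, p.Prime ∧ (p : 𝓞 K) ∈ v.asIdeal := by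
    have h1 : ∀ n : ℕ, n ≠ 0 → (n : 𝓞 K) ∈ v.asIdeal → ∃ p : ℕ, p.Prime ∧ (p : 𝓞 K) ∈ v.asIdeal := by
      intro n
      induction n using Nat.strong_induction_on with
      | _ n ih =>
        intro hn hnv
        have hn1 : n ≠ 1 := by
          rintro rfl
          apply v.isPrime.ne_top
          rw [Ideal.eq_top_iff_one]
          exact_mod_cast hnv
        obtain ⟨k, hk⟩ := Nat.minFac_dvd n
        have hmp := Nat.minFac_prime hn1
        rw [hk] at hnv
        push_cast at hnv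
        rcases v.isPrime.mem_or_mem hnv with h2 | h2
        · exact ⟨n.minFac, hmp, h2⟩
        · have hk0 : k ≠ 0 := by
            rintro rfl
            rw [mul_zero] at hk
            exact hn hk
          refine ih k ?_ hk0 h2
          calc k < n.minFac * k := (Nat.lt_mul_iff_one_lt_left (Nat.pos_of_ne_zero hk0)).2
                hmp.one_lt
            _ = n := hk.symm
    exact h1 _ (Ideal.absNorm_ne_zero_of_nonZeroDivisors ⟨v.asIdeal, by
      rw [mem_nonZeroDivisors_iff_ne_zero]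
      exact v.ne_bot⟩) hmem
  refine ⟨p, hp, hpv, ?_⟩
  have hdvd : Ideal.absNorm v.asIdeal ∣ p ^ 2 := by
    have h1 : v.asIdeal ∣ Ideal.span {(p : 𝓞 K)} := by
      rw [Ideal.dvd_span_singleton]
      exact hpv
    have h2 := map_dvd Ideal.absNorm h1
    have h3 : Ideal.absNorm (Ideal.span {(p : 𝓞 K)}) = p ^ 2 := by
      have h4 := norm_eq h (p : 𝓞 K)
      have h5 : Algebra.norm ℤ ((p : ℕ) : 𝓞 K) = (p : ℤ) ^ 2 := by
        have h6 := mul_tau h (p : 𝓞 K)
        rw [map_natCast] at h6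
        have h7 : (((p : ℤ) ^ 2 : ℤ) : 𝓞 K) = ((Algebra.norm ℤ ((p : ℕ) : 𝓞 K) : ℤ) : 𝓞 K) := by
          rw [← h6]
          push_cast
          ring
        exact (Int.cast_injective h7).symm
      rw [h5] at h4
      exact_mod_cast h4.symm
    rwa [h3] at h2
  obtain ⟨k, hk, hk2⟩ := (Nat.dvd_prime_pow hp).1 hdvd
  interval_cases k
  · rw [pow_zero] at hk2
    exact absurd hk2 hN1
  · left
    rw [hk2, pow_one]
  · exact Or.inr hk2

/-- **Reciprocity.** -/
theorem sym_disc (h : IQ K σ δ) {T : Finset ℕ} (hT : ∀ q ∈ T, Spl h q)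
    {v : HeightOneSpectrum (𝓞 K)} (h2 : (2 : 𝓞 K) ∉ v.asIdeal) (hv : v ∉ pl K T) :
    sym v ((disc T : ℤ) : 𝓞 K) = chiT (pl K T) (gen (hP := h.pid) v) := by
  classical
  have hTp : ∀ q ∈ T, q.Prime := fun q hq => (hT q hq).pr
  have hT2 : ∀ q ∈ T, q.Prime ∧ q ≠ 2 := fun q hq => ⟨(hT q hq).pr, (hT q hq).odd⟩
  have := h.pid
  have hn0 : NeZero (dd T) := ⟨dd_ne_zero hTp⟩
  rw [chiT_pl h hT, norm_eq h, gen_span]
  obtain ⟨p, hp, hpv, hN⟩ := nv_cases h v
  have hpT : p ∉ T := fun hpT => hv ((mem_pl hTp).2 ⟨p, hpT, hpv⟩)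
  have hp2 : p ≠ 2 := by
    rintro rfl
    exact h2 (by exact_mod_cast hpv)
  have hpf : Fact p.Prime := ⟨hp⟩
  have hpd : ¬ (p : ℤ) ∣ disc T := by
    intro hd
    have h3 : p ∣ dd T := by
      rw [← AB.disc_natAbs]
      exact Int.natCast_dvd.1 hd
    unfold dd at h3
    obtain ⟨q, hq, hpq⟩ := (hp.prime.dvd_finsetProd_iff _).1 h3
    exact hpT (by rwa [(Nat.prime_dvd_prime_iff_eq hp (hTp q hq)).1 hpq])
  rcases hN with hN | hN
  · have e : jacobiSym (disc T) p = jacobiSym (p : ℤ) (dd T) := by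
      rw [← recip hT2 p hp2 hpT, ← jacobiSym.legendreSym.to_jacobiSym]
      rfl
    rw [sym_int hp hN, hN, e]
  · have h3 : jacobiSym ((Ideal.absNorm v.asIdeal : ℕ) : ℤ) (dd T) = 1 := by
      rw [hN]
      push_cast
      rw [jacobiSym.pow_left]
      apply jacobiSym.sq_one
      rw [Int.gcd_natCast_natCast]
      refine (Nat.Prime.coprime_iff_not_dvd hp).2 fun h4 => hpd ?_
      rw [← AB.disc_natAbs] at h4
      exact Int.natCast_dvd.2 h4
    rw [h3]
    have hmax : v.asIdeal.IsMaximal := v.isMaximal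
    letI : Field (𝓞 K ⧸ v.asIdeal) := Ideal.Quotient.field v.asIdeal
    have hfin : Finite (𝓞 K ⧸ v.asIdeal) := Ideal.finiteQuotientOfFreeOfNeBot _ v.ne_bot
    letI : Fintype (𝓞 K ⧸ v.asIdeal) := Fintype.ofFinite _
    have hcard : Ideal.absNorm v.asIdeal = Fintype.card (𝓞 K ⧸ v.asIdeal) := by
      rw [Ideal.absNorm_apply, Submodule.cardQuot_apply, Nat.card_eq_fintype_card]
    have hDv : ((disc T : ℤ) : 𝓞 K) ∉ v.asIdeal := fun h4 => hpd ((int_mem hp hpv).1 h4)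
    have hD0 : (Ideal.Quotient.mk v.asIdeal ((disc T : ℤ) : 𝓞 K)) ≠ 0 := by
      rwa [Ne, Ideal.Quotient.eq_zero_iff_mem]
    have hchar : CharP (𝓞 K ⧸ v.asIdeal) p := by
      refine (CharP.charP_iff_prime_eq_zero hp).2 ?_
      have := (Ideal.Quotient.eq_zero_iff_mem (I := v.asIdeal)).2 hpv
      rwa [map_natCast] at this
    -- Fermat
    have hpow : (Ideal.Quotient.mk v.asIdeal ((disc T : ℤ) : 𝓞 K)) ^ (p - 1) = 1 := by
      have h4 : ((disc T : ℤ) : ZMod p) ≠ 0 := by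
        rw [Ne, ZMod.intCast_zmod_eq_zero_iff_dvd]
        exact hpd
      have h5 := ZMod.pow_card_sub_one_eq_one h4
      have h6 := congrArg (ZMod.castHom (dvd_refl p) (𝓞 K ⧸ v.asIdeal)) h5
      rw [map_pow, map_intCast, map_one] at h6
      rw [map_intCast]
      exact h6
    have hsq : IsSquare (Ideal.Quotient.mk v.asIdeal ((disc T : ℤ) : 𝓞 K)) := by
      rw [FiniteField.isSquare_iff (char_ne_two h2) hD0, ← hcard, hN]
      obtain ⟨k, hk⟩ := hp.odd_of_ne_two hp2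
      have h4 : p ^ 2 / 2 = (p - 1) * (k + 1) := by
        have h5 : p ^ 2 = 2 * ((p - 1) * (k + 1)) + 1 := by
          rw [hk, Nat.add_sub_cancel]
          ring
        omega
      rw [h4, pow_mul, hpow, one_pow]
    obtain ⟨z, hz⟩ := hsq
    obtain ⟨y, rfl⟩ := Ideal.Quotient.mk_surjective z
    unfold sym
    rw [if_neg hDv, if_pos ⟨y, by
      rw [← Ideal.Quotient.eq_zero_iff_mem, map_sub, map_pow, hz, sq, sub_self]⟩]
    simp

end places

end Pool.Agent.K4H55.BD
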