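import Pool.Agent.Y682.Lcl
import Pool.Agent.K4H55.AB.Fin

/-!
Local squares.
-/

set_option autoImplicit false

namespace Pool.Agent.K4H55.BD

open NumberField IsDedekindDomain Pool.Agent.Y682 Pool.Agent.Y18.BSD
open Pool.Agent.K4H55.AB (disc_ne)

variable {K : Type} [Field K] [NumberField K]

lemma sq_two (v : HeightOneSpectrum (𝓞 K)) (hv : (2 : 𝓞 K) ∈ v.asIdeal) {D : ℤ} (h : D % 8 = 1) :
    IsSquare (algebraMap K (v.adicCompletion K) ((D : ℤ) : K)) := by
  obtain ⟨m, hm⟩ : ∃ m : ℤ, D = 1 + 8 * m := ⟨D / 8, by omega⟩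
  have h2 : vv v 2 < 1 := by
    have h3 := (HeightOneSpectrum.valuation_lt_one_iff_mem (K := K) v 2).2 hv
    rw [← vv_coe] at h3
    have h4 : algebraMap K (v.adicCompletion K) (algebraMap (𝓞 K) K 2) = 2 := by
      rw [map_ofNat, map_ofNat]
    rwa [h4] at h3
  have h40 : vv v 4 ≠ 0 := by
    rw [Valuation.ne_zero_iff]
    have : (4 : K) ≠ 0 := by norm_num
    have h5 := (map_ne_zero (algebraMap K (v.adicCompletion K))).2 this
    rwa [map_ofNat] at h5
  have hm1 : vv v (algebraMap K (v.adicCompletion K) ((m : ℤ) : K)) ≤ 1 := by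
    rw [vv_coe]
    have h3 := v.valuation_le_one (K := K) ((m : ℤ) : 𝓞 K)
    have e : algebraMap (𝓞 K) K ((m : ℤ) : 𝓞 K) = ((m : ℤ) : K) := map_intCast _ _
    rw [← e]
    exact h3
  obtain ⟨y, hy⟩ := exists_sqrt v (4 * (2 * algebraMap K (v.adicCompletion K) ((m : ℤ) : K))) (by
    rw [map_mul]
    refine mul_lt_of_lt_one_right (zero_lt_iff.2 h40) ?_
    rw [map_mul]
    exact mul_lt_one_of_lt_of_le h2 hm1)
  refine ⟨y, ?_⟩
  rw [← sq, hy, hm]
  push_cast
  simp only [map_add, map_mul, map_one, map_ofNat]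
  ring

lemma sq_odd (v : HeightOneSpectrum (𝓞 K)) {p : ℕ} (hp : p.Prime) (hp2 : p ≠ 2)
    (hv : (p : 𝓞 K) ∈ v.asIdeal) {D y : ℤ} (hD : ¬ (p : ℤ) ∣ D) (h : (p : ℤ) ∣ D - y ^ 2) :
    IsSquare (algebraMap K (v.adicCompletion K) ((D : ℤ) : K)) := by
  have hmem : ∀ n : ℤ, (p : ℤ) ∣ n → ((n : ℤ) : 𝓞 K) ∈ v.asIdeal := by
    rintro n ⟨k, rfl⟩
    push_cast
    exact v.asIdeal.mul_mem_right _ hv
  have hnot : ∀ n : ℤ, ¬ (p : ℤ) ∣ n → ((n : ℤ) : 𝓞 K) ∉ v.asIdeal := by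
    intro n hn hnv
    have h1 : IsCoprime (p : ℤ) n :=
      (Int.prime_iff_natAbs_prime.2 (by simpa using hp)).coprime_iff_not_dvd.2 hn
    obtain ⟨a, b, hab⟩ := h1
    apply v.isPrime.ne_top
    rw [Ideal.eq_top_iff_one]
    have h2 : (1 : 𝓞 K) = (a : 𝓞 K) * (p : 𝓞 K) + (b : 𝓞 K) * (n : 𝓞 K) := by
      have := congrArg (fun x : ℤ => (x : 𝓞 K)) hab
      push_cast at this
      exact this.symm
    rw [h2]
    exact v.asIdeal.add_mem (v.asIdeal.mul_mem_left _ hv) (v.asIdeal.mul_mem_left _ hnv)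
  have hval : ∀ n : ℤ, ¬ (p : ℤ) ∣ n → vv v (algebraMap K (v.adicCompletion K) ((n : ℤ) : K)) = 1 := by
    intro n hn
    rw [vv_coe]
    have := (HeightOneSpectrum.valuation_eq_one_iff_notMem (K := K) v).2 (hnot n hn)
    rwa [map_intCast] at this
  have hy : ¬ (p : ℤ) ∣ y := by
    intro hy
    apply hD
    have h3 : (p : ℤ) ∣ y ^ 2 := dvd_pow hy two_ne_zero
    have := dvd_add h h3
    rwa [sub_add_cancel] at this
  have h4 : vv v 4 = 1 := by
    have h5 : ¬ (p : ℤ) ∣ 4 := by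
      intro h6
      have h7 : p ∣ 2 ^ 2 := by
        have : (p : ℤ) ∣ ((4 : ℕ) : ℤ) := by exact_mod_cast h6
        exact_mod_cast this
      have h8 := hp.dvd_of_dvd_pow h7
      exact hp2 ((Nat.prime_dvd_prime_iff_eq hp Nat.prime_two).1 h8)
    have h6 := hval 4 h5
    have h7 : algebraMap K (v.adicCompletion K) (((4 : ℤ) : ℤ) : K) = 4 := by
      push_cast
      rw [map_ofNat]
    rwa [h7] at h6
  have hy1 := hval y hy
  have hy0 : algebraMap K (v.adicCompletion K) ((y : ℤ) : K) ≠ 0 := by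
    intro h0
    rw [h0, map_zero] at hy1
    exact zero_ne_one hy1
  obtain ⟨z, hz⟩ := exists_sqrt' v (x := algebraMap K (v.adicCompletion K) ((D : ℤ) : K)) hy0 (by
    rw [h4, hy1, one_pow, one_mul]
    have h5 : v.valuation K (algebraMap (𝓞 K) K ((D - y ^ 2 : ℤ) : 𝓞 K)) < 1 :=
      (HeightOneSpectrum.valuation_lt_one_iff_mem (K := K) v _).2 (hmem _ h)
    have e0 : algebraMap (𝓞 K) K ((D - y ^ 2 : ℤ) : 𝓞 K) = ((D - y ^ 2 : ℤ) : K) :=
      map_intCast _ _
    rw [e0, ← vv_coe] at h5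
    have e : algebraMap K (v.adicCompletion K) ((D : ℤ) : K) -
        algebraMap K (v.adicCompletion K) ((y : ℤ) : K) ^ 2 =
        algebraMap K (v.adicCompletion K) (((D - y ^ 2 : ℤ)) : K) := by
      push_cast
      simp only [map_sub, map_pow]
    rw [e]
    exact h5)
  exact ⟨z, by rw [← sq, hz]⟩

theorem sq_loc {T : Finset ℕ} (hT : ∀ q ∈ T, q.Prime ∧ q ≠ 2) {p : ℕ} (hp : p.Prime)
    (h1 : jacobiSym p (dd T) = 1) (v : HeightOneSpectrum (𝓞 K)) (hv : (p : 𝓞 K) ∈ v.asIdeal) :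
    IsSquare (algebraMap K (v.adicCompletion K) ((disc T : ℤ) : K)) := by
  have hn0 : NeZero (dd T) := ⟨dd_ne_zero fun q hq => (hT q hq).1⟩
  by_cases hp2 : p = 2
  · subst hp2
    refine sq_two v (by exact_mod_cast hv) ?_
    have hd4 : disc T % 4 = 1 := Pool.Agent.K4H55.AB.disc_mod hT
    have hodd : Odd (dd T) := by
      have h3 : (disc T).natAbs = dd T := Pool.Agent.K4H55.AB.disc_natAbs T
      rw [Nat.odd_iff]
      omega
    have h2 := jacobiSym.at_two hodd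
    rw [show ((2 : ℕ) : ℤ) = 2 from rfl] at h1
    rw [h1] at h2
    have h3 : (disc T).natAbs = dd T := Pool.Agent.K4H55.AB.disc_natAbs T
    rw [ZMod.χ₈_nat_eq_if_mod_eight] at h2
    split_ifs at h2 with h4 h5
    all_goals omega
  · have : Fact p.Prime := ⟨hp⟩
    have hpT : p ∉ T := by
      intro hpT
      have h2 : p ∣ dd T := Finset.dvd_prod_of_mem _ hpT
      have h3 : jacobiSym (p : ℤ) (dd T) = 0 := by
        rw [jacobiSym.eq_zero_iff_not_coprime, Int.gcd_natCast_natCast]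
        intro h7
        exact hp.one_lt.ne' (Nat.Coprime.eq_one_of_dvd h7 h2)
      rw [h3] at h1
      exact zero_ne_one h1
    have h2 := recip hT p hp2 hpT
    rw [h1] at h2
    have hD0 : ((disc T : ℤ) : ZMod p) ≠ 0 := by
      intro h3
      rw [h3, quadraticChar_zero] at h2
      exact zero_ne_one h2
    obtain ⟨y, hy⟩ := (quadraticChar_one_iff_isSquare hD0).1 h2
    refine sq_odd v hp hp2 hv (D := disc T) (y := (y.val : ℤ)) ?_ ?_
    · intro h3
      exact hD0 ((ZMod.intCast_zmod_eq_zero_iff_dvd _ _).2 h3)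
    · rw [← ZMod.intCast_zmod_eq_zero_iff_dvd]
      push_cast
      rw [ZMod.natCast_zmod_val, hy]
      ring

end Pool.Agent.K4H55.BD
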