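import Pool.Agent.K4H55.BD.Alg

/-!
Cubic extensions.
-/

set_option autoImplicit false

namespace Pool.Agent.K4H55.BD

open Module

/-- `1, θ, θ²` is a basis -/
structure Cub (K : Type*) {L : Type*} [Field K] [Field L] [Algebra K L] (θ : L) : Prop where
  ind : ∀ p q r : K, algebraMap K L p + algebraMap K L q * θ + algebraMap K L r * θ ^ 2 = 0 →
    p = 0 ∧ q = 0 ∧ r = 0
  span : ∀ β : L, ∃ u v w : K, β = algebraMap K L u + algebraMap K L v * θ +
    algebraMap K L w * θ ^ 2

variable {K L : Type*} [Field K] [Field L] [Algebra K L] {θ : L}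

/-- the basis -/
noncomputable def Cub.basis (h : Cub K θ) : Basis (Fin 3) K L :=
  Basis.mk (v := ![1, θ, θ ^ 2]) (by
    rw [Fintype.linearIndependent_iff]
    intro g hg
    rw [Fin.sum_univ_three] at hg
    simp only [Matrix.cons_val_zero, Matrix.cons_val_one, Matrix.cons_val] at hg
    have h1 := h.ind (g 0) (g 1) (g 2) (by
      rw [Algebra.smul_def, Algebra.smul_def, Algebra.smul_def, mul_one] at hg
      exact hg)
    intro i
    fin_cases i
    · exact h1.1
    · exact h1.2.1
    · exact h1.2.2) (by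
    intro β _
    obtain ⟨u, v, w, rfl⟩ := h.span β
    have e : algebraMap K L u + algebraMap K L v * θ + algebraMap K L w * θ ^ 2 =
        u • (1 : L) + v • θ + w • θ ^ 2 := by
      rw [Algebra.smul_def, Algebra.smul_def, Algebra.smul_def, mul_one]
    rw [e]
    refine Submodule.add_mem _ (Submodule.add_mem _ (Submodule.smul_mem _ _ ?_)
      (Submodule.smul_mem _ _ ?_)) (Submodule.smul_mem _ _ ?_)
    · exact Submodule.subset_span ⟨0, rfl⟩
    · exact Submodule.subset_span ⟨1, rfl⟩
    · exact Submodule.subset_span ⟨2, rfl⟩)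

lemma Cub.b0 (h : Cub K θ) : h.basis 0 = 1 := by simp [Cub.basis]
lemma Cub.b1 (h : Cub K θ) : h.basis 1 = θ := by simp [Cub.basis]
lemma Cub.b2 (h : Cub K θ) : h.basis 2 = θ ^ 2 := by simp [Cub.basis]

theorem norm_cubic (h : Cub K θ) {p q r : K}
    (he : θ ^ 3 + algebraMap K L p * θ ^ 2 + algebraMap K L q * θ + algebraMap K L r = 0) :
    Algebra.norm K θ = -r := by
  rw [Algebra.norm_eq_matrix_det h.basis, Matrix.det_fin_three]
  have h0 : θ * h.basis 0 = h.basis 1 := by rw [h.b0, h.b1, mul_one]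
  have h1 : θ * h.basis 1 = h.basis 2 := by rw [h.b1, h.b2, sq]
  have h2 : θ * h.basis 2 = (-r) • h.basis 0 + (-q) • h.basis 1 + (-p) • h.basis 2 := by
    rw [h.b0, h.b1, h.b2, Algebra.smul_def, Algebra.smul_def, Algebra.smul_def, map_neg, map_neg,
      map_neg]
    linear_combination he
  simp only [Algebra.leftMulMatrix_eq_repr_mul, h0, h1, h2, map_add, map_smul, Basis.repr_self,
    Finsupp.add_apply, Finsupp.smul_apply, Finsupp.single_apply, smul_eq_mul]
  simp

/-- a linear change of the generator -/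
lemma Cub.lin (h : Cub K θ) {D x : K} (hD : D ≠ 0) :
    Cub K (algebraMap K L x - algebraMap K L D * θ) := by
  refine ⟨fun p q r he => ?_, fun β => ?_⟩
  · have h1 := h.ind (p + q * x + r * x ^ 2) (-(q * D) - 2 * r * x * D) (r * D ^ 2) (by
      simp only [map_add, map_sub, map_mul, map_pow, map_neg, map_ofNat]
      linear_combination he)
    obtain ⟨e0, e1, e2⟩ := h1
    have hr : r = 0 := by
      rcases mul_eq_zero.1 e2 with h3 | h3
      · exact h3
      · exact absurd h3 (pow_ne_zero 2 hD)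
    subst hr
    have hq : q = 0 := by
      have h3 : q * D = 0 := by linear_combination -e1
      exact (mul_eq_zero.1 h3).resolve_right hD
    subst hq
    refine ⟨?_, rfl, rfl⟩
    linear_combination e0
  · obtain ⟨u, v, w, rfl⟩ := h.span β
    refine ⟨u + v * (x / D) + w * (x / D) ^ 2, -(v / D) - 2 * w * x / D ^ 2, w / D ^ 2, ?_⟩
    have hD' : algebraMap K L D ≠ 0 := (map_ne_zero _).2 hD
    simp only [map_add, map_sub, map_mul, map_pow, map_neg, map_ofNat, map_div₀]
    field_simp
    ring

lemma Cub.smul (h : Cub K θ) {D : K} (hD : D ≠ 0) : Cub K (algebraMap K L D * θ) := by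
  have h1 := h.lin (x := 0) (neg_ne_zero.2 hD)
  rw [map_zero, map_neg, zero_sub, neg_mul, neg_neg] at h1
  exact h1

/-- the norm of `x - D θ` -/
theorem norm_lin (h : Cub K θ) {a b D x : K} (hD : D ≠ 0)
    (hθ : θ ^ 3 + algebraMap K L a * θ + algebraMap K L b = 0) :
    Algebra.norm K (algebraMap K L x - algebraMap K L D * θ) =
      x ^ 3 + a * D ^ 2 * x + b * D ^ 3 := by
  have h1 := norm_cubic (h.lin (x := x) hD) (p := -3 * x) (q := 3 * x ^ 2 + a * D ^ 2)
    (r := -(x ^ 3 + a * D ^ 2 * x + b * D ^ 3)) (by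
      simp only [map_add, map_sub, map_mul, map_pow, map_neg, map_ofNat]
      linear_combination (-(algebraMap K L D) ^ 3) * hθ)
  rw [h1, neg_neg]

end Pool.Agent.K4H55.BD
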