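import Pool.Agent.K4H55.BD.Sym
import Pool.Agent.K4H55.BI.Main

/-!
Twists by rational discriminants.
-/

set_option autoImplicit false

namespace Pool.Agent.K4H55.BD

open NumberField IsDedekindDomain ComplexConjugate
open Pool.Agent.K4H55.BI (IQ BF NVT Adm sym chiT gen gen_span gen_dvd gen_prime gen_na gen_cov gen_inj
  chi_gen chi_mul chi_symmDiff fam_of ordK Fam sp bt fv corr nvt_iff AdS AdB Ok)
open Pool.Agent.Y18.BSD (dd disc dd_ne_zero)
open scoped symmDiff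

section pl

variable (K : Type) [Field K] [NumberField K]

lemma fin_over {q : ℕ} (hq : q ≠ 0) :
    {v : HeightOneSpectrum (𝓞 K) | (q : 𝓞 K) ∈ v.asIdeal}.Finite := by
  have h0 : (Ideal.span {(q : 𝓞 K)} : Ideal (𝓞 K)) ≠ 0 := by
    rw [Ne, Ideal.zero_eq_bot, Ideal.span_singleton_eq_bot]
    exact_mod_cast hq
  refine (Ideal.finite_factors h0).subset fun v hv => ?_
  show v.asIdeal ∣ _
  rw [Ideal.dvd_span_singleton]
  exact hv

open Classical in
/-- the places over the primes of `T` -/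
noncomputable def pl (T : Finset ℕ) : Finset (HeightOneSpectrum (𝓞 K)) :=
  T.biUnion fun q => if h : {v : HeightOneSpectrum (𝓞 K) | (q : 𝓞 K) ∈ v.asIdeal}.Finite then
    h.toFinset else ∅

variable {K}

lemma mem_pl {T : Finset ℕ} (hT : ∀ q ∈ T, q.Prime) {v : HeightOneSpectrum (𝓞 K)} :
    v ∈ pl K T ↔ ∃ q ∈ T, (q : 𝓞 K) ∈ v.asIdeal := by
  classical
  unfold pl
  rw [Finset.mem_biUnion]
  refine exists_congr fun q => and_congr_right fun hq => ?_
  rw [dif_pos (fin_over K (hT q hq).ne_zero), Set.Finite.mem_toFinset]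
  rfl

lemma uniq_over {v : HeightOneSpectrum (𝓞 K)} {q q' : ℕ} (hq : q.Prime) (hq' : q'.Prime)
    (h : (q : 𝓞 K) ∈ v.asIdeal) (h' : (q' : 𝓞 K) ∈ v.asIdeal) : q = q' := by
  have h1 : (q : ℤ) ∣ (q' : ℤ) := (int_mem hq h).1 (by push_cast; exact h')
  exact (Nat.prime_dvd_prime_iff_eq hq hq').1 (by exact_mod_cast h1)

lemma pl_symm [DecidableEq (HeightOneSpectrum (𝓞 K))] {T T' : Finset ℕ} (hT : ∀ q ∈ T, q.Prime)
    (hT' : ∀ q ∈ T', q.Prime) : pl K (T ∆ T') = pl K T ∆ pl K T' := by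
  have hTT : ∀ q ∈ T ∆ T', q.Prime := fun q hq => by
    rcases Finset.mem_symmDiff.1 hq with h | h
    · exact hT q h.1
    · exact hT' q h.1
  ext v
  rw [Finset.mem_symmDiff, mem_pl hTT, mem_pl hT, mem_pl hT']
  constructor
  · rintro ⟨q, hq, hv⟩
    rcases Finset.mem_symmDiff.1 hq with ⟨h1, h2⟩ | ⟨h1, h2⟩
    · refine Or.inl ⟨⟨q, h1, hv⟩, ?_⟩
      rintro ⟨q', hq', hv'⟩
      rw [uniq_over (hT q h1) (hT' q' hq') hv hv'] at h2
      exact h2 hq'
    · refine Or.inr ⟨⟨q, h1, hv⟩, ?_⟩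
      rintro ⟨q', hq', hv'⟩
      rw [uniq_over (hT' q h1) (hT q' hq') hv hv'] at h2
      exact h2 hq'
  · rintro (⟨⟨q, hq, hv⟩, h⟩ | ⟨⟨q, hq, hv⟩, h⟩)
    · exact ⟨q, Finset.mem_symmDiff.2 (Or.inl ⟨hq, fun h' => h ⟨q, h', hv⟩⟩), hv⟩
    · exact ⟨q, Finset.mem_symmDiff.2 (Or.inr ⟨hq, fun h' => h ⟨q, h', hv⟩⟩), hv⟩

lemma two_notMem {v : HeightOneSpectrum (𝓞 K)} {q : ℕ} (hq : q.Prime) (hq2 : q ≠ 2)
    (h : (q : 𝓞 K) ∈ v.asIdeal) : (2 : 𝓞 K) ∉ v.asIdeal := by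
  intro h2
  exact hq2 (uniq_over hq Nat.prime_two h (by exact_mod_cast h2))

end pl

variable {K : Type} [Field K] [NumberField K] {σ : K →+* ℂ} {δ : K}

lemma chiT_mul (h : IQ K σ δ) {T : Finset (HeightOneSpectrum (𝓞 K))}
    (hT : ∀ v ∈ T, (2 : 𝓞 K) ∉ v.asIdeal) (x y : 𝓞 K) :
    chiT T (x * y) = chiT T x * chiT T y := by
  classical
  have := h.pid
  rw [← chi_gen, ← chi_gen, ← chi_gen]
  exact chi_mul (ordK h) (fam_of (A := {v | (2 : 𝓞 K) ∉ v.asIdeal}) (fun v hv => hv) hT) x y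

lemma sym_mul (h : IQ K σ δ) {v : HeightOneSpectrum (𝓞 K)} (hv : (2 : 𝓞 K) ∉ v.asIdeal)
    (x y : 𝓞 K) : sym v (x * y) = sym v x * sym v y := by
  have h1 := chiT_mul h (T := {v}) (fun w hw => by rwa [Finset.mem_singleton.1 hw]) x y
  unfold chiT at h1
  rwa [Finset.prod_singleton, Finset.prod_singleton, Finset.prod_singleton] at h1

lemma exists_over (h : IQ K σ δ) {q : ℕ} (hq : q.Prime) :
    ∃ v : HeightOneSpectrum (𝓞 K), (q : 𝓞 K) ∈ v.asIdeal := by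
  have := h.pid
  have h0 : (q : 𝓞 K) ≠ 0 := by exact_mod_cast hq.ne_zero
  have hu : ¬ IsUnit (q : 𝓞 K) := by
    intro hu
    have h1 : (Ideal.span {(q : 𝓞 K)}) = ⊤ := Ideal.span_singleton_eq_top.2 hu
    have h2 := norm_eq h (q : 𝓞 K)
    rw [h1, Ideal.absNorm_top] at h2
    have h3 : Algebra.norm ℤ ((q : ℕ) : 𝓞 K) = (q : ℤ) ^ 2 := by
      have h4 := mul_tau h (q : 𝓞 K)
      rw [map_natCast] at h4
      have h5 : (((q : ℤ) ^ 2 : ℤ) : 𝓞 K) = ((Algebra.norm ℤ ((q : ℕ) : 𝓞 K) : ℤ) : 𝓞 K) := by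
        rw [← h4]
        push_cast
        ring
      exact (Int.cast_injective h5).symm
    rw [h3] at h2
    have h4 : (q : ℤ) ^ 2 = 1 := by simpa using h2
    have h5 : (2 : ℤ) ≤ q := by exact_mod_cast hq.two_le
    nlinarith
  obtain ⟨v, hv⟩ := gen_cov h0 hu
  exact ⟨v, gen_dvd.1 hv⟩

lemma chiT_one (h : IQ K σ δ) {q : ℕ} (hq : Spl h q) (x : 𝓞 K) :
    chiT (pl K {q}) x = ((jacobiSym (Algebra.norm ℤ x) q : ℤ) : ℂ) := by
  classical
  obtain ⟨v, hv⟩ := exists_over h hq.pr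
  have h1 : pl K {q} = {v, tv h v} := by
    ext w
    rw [mem_pl (by
      intro q' hq'
      rw [Finset.mem_singleton.1 hq']
      exact hq.pr), Finset.mem_insert, Finset.mem_singleton]
    constructor
    · rintro ⟨q', hq', hw⟩
      rw [Finset.mem_singleton.1 hq'] at hw
      exact eq_or_tv h hq hv hw
    · rintro (rfl | rfl)
      · exact ⟨q, Finset.mem_singleton_self q, hv⟩
      · exact ⟨q, Finset.mem_singleton_self q, mem_tv_nat h hv⟩
  unfold chiT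
  rw [h1, Finset.prod_pair (tv_ne h hq hv).symm, sym_tv,
    ← sym_mul h (two_notMem hq.pr hq.odd hv), mul_tau, sym_int hq.pr (hq.deg v hv)]

/-- **The symbol is a Jacobi symbol.** -/
theorem chiT_pl (h : IQ K σ δ) {T : Finset ℕ} (hT : ∀ q ∈ T, Spl h q) (x : 𝓞 K) :
    chiT (pl K T) x = ((jacobiSym (Algebra.norm ℤ x) (dd T) : ℤ) : ℂ) := by
  classical
  induction T using Finset.induction_on with
  | empty =>
    unfold chiT pl dd
    simp
  | insert q T hq ih =>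
    have hq' := hT q (Finset.mem_insert_self q T)
    have hT' : ∀ q ∈ T, Spl h q := fun q hq => hT q (Finset.mem_insert_of_mem hq)
    have hTp : ∀ q ∈ T, q.Prime := fun q hq => (hT' q hq).pr
    have hsp : ∀ q' ∈ ({q} : Finset ℕ), q'.Prime := fun q' h' => by
      rw [Finset.mem_singleton.1 h']; exact hq'.pr
    have h1 : pl K (insert q T) = pl K {q} ∪ pl K T := by
      unfold pl
      rw [Finset.biUnion_insert, Finset.singleton_biUnion]
    have h2 : Disjoint (pl K {q}) (pl K T) := by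
      rw [Finset.disjoint_left]
      intro v hv hv'
      obtain ⟨q1, hq1, hv1⟩ := (mem_pl hsp).1 hv
      obtain ⟨q2, hq2, hv2⟩ := (mem_pl hTp).1 hv'
      rw [Finset.mem_singleton.1 hq1] at hv1
      rw [← uniq_over hq'.pr (hTp q2 hq2) hv1 hv2] at hq2
      exact hq hq2
    have h3 : chiT (pl K (insert q T)) x = chiT (pl K {q}) x * chiT (pl K T) x := by
      unfold chiT
      rw [h1, Finset.prod_union h2]
    have : NeZero (dd T) := ⟨dd_ne_zero hTp⟩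
    have : NeZero q := ⟨hq'.pr.ne_zero⟩
    rw [h3, chiT_one h hq', ih hT']
    have h4 : dd (insert q T) = q * dd T := by
      unfold dd
      rw [Finset.prod_insert hq]
    rw [h4, jacobiSym.mul_right]
    push_cast
    rfl

lemma chiT_unit (h : IQ K σ δ) {T : Finset ℕ} (hT : ∀ q ∈ T, Spl h q) {u : 𝓞 K} (hu : IsUnit u) :
    chiT (pl K T) u = 1 := by
  rw [chiT_pl h hT, norm_eq h, Ideal.span_singleton_eq_top.2 hu, Ideal.absNorm_top]
  simp

/-- the admissible rational primes -/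
def QA (h : IQ K σ δ) {J : Type} (n : J → 𝓞 K) (c : J → Ideal (𝓞 K) → ℂ)
    (lam : Ideal (integralClosure ℤ ℂ)) : Set ℕ :=
  {q | Spl h q ∧ ∀ v : HeightOneSpectrum (𝓞 K), (q : 𝓞 K) ∈ v.asIdeal → v ∈ Adm n c lam}

/-- **Corrections.** -/
theorem main_q (h : IQ K σ δ) [hP : IsPrincipalIdealRing (𝓞 K)] {J : Type} [Fintype J]
    (n : J → 𝓞 K) (c : J → Ideal (𝓞 K) → ℂ) (hf : ∀ i, BF σ δ (n i) (c i))
    (h0 : ∀ i, NVT (n i) (c i) ∅) (lam : Ideal (integralClosure ℤ ℂ)) (hlam : lam.IsPrime)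
    (hmem : (2 : integralClosure ℤ ℂ) ∈ lam) :
    ∃ V : ℕ, ∀ (A : Set ℕ), A ⊆ QA h n c lam → ∀ (pos : Prop) (P : Finset ℕ),
      ∃ KK : Finset (Finset ℕ), KK.card ≤ V ∧
      (∀ k ∈ KK, AB.GT A pos P k) ∧ ∀ T, AB.GT A pos P T →
        ∃ k ∈ KK, ∀ i, NVT (n i) (c i) (pl K (T ∆ k)) := by
  classical
  set D := ordK h with hD
  choose C w κ κW hN using fun i => (hf i).newf h
  have hMG := fun i => (hN i).mg
  have hb0 : ∀ i, bt D (fv D fun x => c i (Ideal.span {x})) ∅ ≠ 0 := by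
    intro i
    have h1 := (nvt_iff h (hf i) (T := ∅) (by
      rw [Finset.image_empty]
      exact ⟨fun p hp => absurd hp (Finset.notMem_empty p), fun p hp =>
        absurd hp (Finset.notMem_empty p), fun p hp => absurd hp (Finset.notMem_empty p)⟩)
      (fun u _ => by unfold chiT; simp) (fun v hv => absurd hv (Finset.notMem_empty v))).1 (h0 i)
    rwa [Finset.image_empty] at h1
  obtain ⟨V, hV⟩ := corr hMG hb0 lam hlam hmem
  refine ⟨2 ^ V, fun A hA pos P => ?_⟩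
  have hAp : ∀ q ∈ A, q.Prime ∧ q ≠ 2 := fun q hq => ⟨(hA hq).1.pr, (hA hq).1.odd⟩
  have hgp : ∀ {T : Finset ℕ}, AB.GT A pos P T → ∀ q ∈ T, q.Prime := fun hT q hq =>
    (hAp q (hT.adm q hq)).1
  set A' : Set (𝓞 K) := gen '' {v | ∃ q ∈ A, (q : 𝓞 K) ∈ v.asIdeal} with hA'
  have hin : ∀ v : HeightOneSpectrum (𝓞 K), (∃ q ∈ A, (q : 𝓞 K) ∈ v.asIdeal) →
      v ∈ Adm n c lam := by
    rintro v ⟨q, hq, hv⟩
    exact (hA hq).2 v hv
  let H : Subgroup (𝓞 K → ℤˣ) :=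
    { carrier := {e | ∃ T, AB.GT A pos P T ∧ e = BI.cT ((pl K T).image gen)}
      mul_mem' := by
        rintro _ _ ⟨T, hT, rfl⟩ ⟨T', hT', rfl⟩
        refine ⟨T ∆ T', hT.symm hAp hT', ?_⟩
        rw [BI.cT_mul, pl_symm (hgp hT) (hgp hT'), Finset.image_symmDiff _ _ gen_inj]
      one_mem' := by
        refine ⟨∅, ?_, ?_⟩
        · refine ⟨by simp, fun _ => by simp [disc], fun p _ => by simp [dd]⟩
        · have : pl K ∅ = ∅ := by unfold pl; simp
          rw [this, Finset.image_empty, BI.cT_empty]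
      inv_mem' := by
        rintro _ ⟨T, hT, rfl⟩
        refine ⟨T, hT, ?_⟩
        funext p
        rw [Pi.inv_apply, Int.units_inv_eq_self] }
  have hOk : Ok H A' := by
    refine ⟨?_, ?_⟩
    · rintro _ ⟨T, -, rfl⟩
      exact BI.cT_fin _
    · rintro _ ⟨T, hT, rfl⟩ p hp
      obtain ⟨v, hv, rfl⟩ := Finset.mem_image.1 ((BI.cT_ne p).1 hp)
      obtain ⟨q, hq, hqv⟩ := (mem_pl (hgp hT)).1 hv
      exact ⟨v, ⟨q, hT.adm q hq, hqv⟩, rfl⟩
  have hAS : ∀ i, AdS (n i) A' := by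
    intro i
    refine ⟨?_, ?_, ?_, ?_⟩
    · rintro p ⟨v, hv, rfl⟩
      exact gen_prime v
    · rintro p ⟨v, hv, rfl⟩ hd
      exact (hin v hv).1 (gen_dvd.1 hd)
    · rintro p ⟨v, hv, rfl⟩ p' ⟨v', hv', rfl⟩ hd
      rw [gen_na hd]
    · rintro p ⟨v, hv, rfl⟩ hd
      exact ((hin v hv).2 i).1 (gen_dvd.1 hd)
  obtain ⟨K1, hK1, hK2, hK3⟩ := hV A' hAS (by
    rintro i q ⟨v, hv, rfl⟩
    refine ⟨gen_prime v, fun hd => ((hin v hv).2 i).1 (gen_dvd.1 hd), ?_⟩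
    simp only [gen_span]
    exact ((hin v hv).2 i).2) H hOk
  choose! t ht using hK2
  refine ⟨K1.image t, Finset.card_image_le.trans hK1, ?_, ?_⟩
  · intro k hk
    obtain ⟨e, he, rfl⟩ := Finset.mem_image.1 hk
    exact (ht e he).1
  · intro T hT
    obtain ⟨e, he, h4⟩ := hK3 (BI.cT ((pl K T).image gen)) ⟨T, hT, rfl⟩
    refine ⟨t e, Finset.mem_image_of_mem t he, fun i => ?_⟩
    have hte := (ht e he).1
    have h5 : e = BI.cT ((pl K (t e)).image gen) := (ht e he).2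
    have h7 := h4 i
    rw [h5, BI.cT_mul, ← Finset.image_symmDiff _ _ gen_inj, BI.sp_cT] at h7
    have hTt := hT.symm hAp hte
    have hspl : ∀ q ∈ T ∆ t e, Spl h q := fun q hq => (hA (hTt.adm q hq)).1
    rw [← pl_symm (hgp hT) (hgp hte)] at h7
    have hin2 : ∀ v ∈ pl K (T ∆ t e), v ∈ Adm n c lam := by
      intro v hv
      obtain ⟨q, hq, hqv⟩ := (mem_pl (hgp hTt)).1 hv
      exact hin v ⟨q, hTt.adm q hq, hqv⟩
    rw [nvt_iff h (hf i) (fam_of (A := Adm n c lam) (fun v hv => hv.1) hin2)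
      (fun u hu => chiT_unit h hspl hu) fun v hv => ((hin2 v hv).2 i).1]
    exact h7

end Pool.Agent.K4H55.BD
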