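import Pool.Agent.K4H55.BD.EC
import Pool.Agent.K4H55.BD.Den
import Pool.Agent.K4H55.BD.Loc

/-!
The Euler product of the twist, and the admissible primes.
-/

set_option autoImplicit false

namespace Pool.Agent.K4H55.BD

open NumberField IsDedekindDomain ComplexConjugate
open Pool.Agent.K4H55.BI (IQ BF NVT Adm sym chiT gen gen_span gen_dvd gen_prime efac)
open Pool.Agent.Y18.BSD (dd disc dd_ne_zero recip)

variable {K : Type} [Field K] [NumberField K] {σ : K →+* ℂ} {δ : K}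

open Classical in
/-- the Euler factors of the twist -/
noncomputable def ef (a b n : 𝓞 K) (c : Ideal (𝓞 K) → ℂ) (D : ℤ) (s : ℂ)
    (v : HeightOneSpectrum (𝓞 K)) : ℂ :=
  if 2 * (4 * a ^ 3 + 27 * b ^ 2) ∈ v.asIdeal then
    (1 - c v.asIdeal * (Ideal.absNorm v.asIdeal : ℂ) ^ (-s) +
      (if n ∈ v.asIdeal then 0 else (Ideal.absNorm v.asIdeal : ℂ) ^ (1 - 2 * s)))⁻¹
  else if (D : 𝓞 K) ∈ v.asIdeal then 1
  else (1 - ((Ideal.absNorm v.asIdeal : ℂ) - pv (a * (D : 𝓞 K) ^ 2) (b * (D : 𝓞 K) ^ 3) v) *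
    (Ideal.absNorm v.asIdeal : ℂ) ^ (-s) + (Ideal.absNorm v.asIdeal : ℂ) ^ (1 - 2 * s))⁻¹

/-- the nonvanishing of the `L`-function of the twist -/
def NVE (a b n : 𝓞 K) (c : Ideal (𝓞 K) → ℂ) (D : ℤ) : Prop :=
  ∃ G : ℂ → ℂ, Differentiable ℂ G ∧ (∀ s : ℂ, 2 < s.re → HasProd (ef a b n c D s) (G s)) ∧ G 1 ≠ 0

lemma disc_mem {T : Finset ℕ} {v : HeightOneSpectrum (𝓞 K)} :
    ((disc T : ℤ) : 𝓞 K) ∈ v.asIdeal ↔ ∃ q ∈ T, (q : 𝓞 K) ∈ v.asIdeal := by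
  unfold disc
  push_cast
  rw [v.isPrime.prod_mem_iff]
  refine exists_congr fun q => and_congr_right fun _ => ?_
  rcases neg_one_pow_eq_or (𝓞 K) ((q - 1) / 2) with h | h
  · rw [h, one_mul]
  · rw [h, neg_mul, one_mul, neg_mem_iff]

theorem ef_eq (h : IQ K σ δ) [hP : IsPrincipalIdealRing (𝓞 K)] {a b n : 𝓞 K}
    {c : Ideal (𝓞 K) → ℂ} {T : Finset ℕ} (hT : ∀ q ∈ T, Spl h q)
    (hloc : ∀ p : ℕ, p.Prime → (∃ v : HeightOneSpectrum (𝓞 K), (p : 𝓞 K) ∈ v.asIdeal ∧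
      2 * (4 * a ^ 3 + 27 * b ^ 2) ∈ v.asIdeal) → jacobiSym p (dd T) = 1)
    (hc : ∀ v : HeightOneSpectrum (𝓞 K), 2 * (4 * a ^ 3 + 27 * b ^ 2) ∉ v.asIdeal →
      n ∉ v.asIdeal ∧ c v.asIdeal = (Ideal.absNorm v.asIdeal : ℂ) - pv a b v)
    (s : ℂ) (v : HeightOneSpectrum (𝓞 K)) : ef a b n c (disc T) s v = efac n c (pl K T) s v := by
  classical
  have hTp : ∀ q ∈ T, q.Prime := fun q hq => (hT q hq).pr
  have hn0 : NeZero (dd T) := ⟨dd_ne_zero hTp⟩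
  unfold ef efac
  by_cases h1 : 2 * (4 * a ^ 3 + 27 * b ^ 2) ∈ v.asIdeal
  · rw [if_pos h1]
    have h2 : chiT (pl K T) (gen v) = 1 := by
      rw [chiT_pl h hT, norm_eq h, gen_span]
      obtain ⟨p, hp, hpv, hN⟩ := nv_cases h v
      have h3 := hloc p hp ⟨v, hpv, h1⟩
      rcases hN with hN | hN
      · rw [hN, h3]
        norm_num
      · rw [hN]
        push_cast
        rw [jacobiSym.pow_left, h3]
        norm_num
    rw [h2, mul_one, one_pow, one_mul]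
  · rw [if_neg h1]
    by_cases h2 : ((disc T : ℤ) : 𝓞 K) ∈ v.asIdeal
    · rw [if_pos h2]
      have h3 : v ∈ pl K T := (mem_pl hTp).2 (disc_mem.1 h2)
      have h4 : chiT (pl K T) (gen v) = 0 := by
        unfold chiT
        refine Finset.prod_eq_zero h3 ?_
        unfold sym
        rw [if_pos (gen_dvd.1 (dvd_refl (gen v)))]
      rw [h4]
      simp
    · rw [if_neg h2]
      have h3 : v ∉ pl K T := fun h4 => h2 (disc_mem.2 ((mem_pl hTp).1 h4))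
      have h2v : (2 : 𝓞 K) ∉ v.asIdeal := fun h4 => h1 (Ideal.mul_mem_right _ _ h4)
      have h4 := sym_disc h hT h2v h3
      have h5 : sym v ((disc T : ℤ) : 𝓞 K) ^ 2 = 1 := by
        unfold sym
        rw [if_neg h2]
        split_ifs <;> norm_num
      rw [← h4, h5, one_mul, if_neg (hc v h1).1, (hc v h1).2, pv_twist h2v a b h2]
      ring_nf

/-- the admissible primes -/
theorem QE_sub (h : IQ K σ δ) {a b n : 𝓞 K} {c : Ideal (𝓞 K) → ℂ}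
    (hc : ∀ v : HeightOneSpectrum (𝓞 K), 2 * (4 * a ^ 3 + 27 * b ^ 2) ∉ v.asIdeal →
      n ∉ v.asIdeal ∧ c v.asIdeal = (Ideal.absNorm v.asIdeal : ℂ) - pv a b v)
    {lam : Ideal (integralClosure ℤ ℂ)}
    (hint : ∀ m : ℤ, (m : integralClosure ℤ ℂ) ∈ lam → (2 : ℤ) ∣ m) :
    QE h a b n ⊆ QA h (fun _ : Unit => n) (fun _ => c) lam := by
  rintro q ⟨hq, hv⟩
  refine ⟨hq, fun v hqv => ?_⟩
  obtain ⟨h1, h2, h3⟩ := hv v hqv
  have h2v := two_notMem hq.pr hq.odd hqv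
  refine ⟨h2v, fun _ => ⟨h2, fun x hx hxe => ?_⟩⟩
  replace hxe : (x : ℂ) = c v.asIdeal := hxe
  rw [(hc v h1).2, hq.deg v hqv] at hxe
  obtain ⟨k, hk⟩ := pv_even h2v h3
  have h4 : x = (((q : ℤ) - (pv a b v : ℤ) : ℤ) : integralClosure ℤ ℂ) := by
    apply Subtype.ext
    rw [hxe]
    push_cast
    simp
  rw [h4] at hx
  have h5 := hint _ hx
  have h6 := hq.pr.odd_of_ne_two hq.odd
  rw [Nat.odd_iff] at h6
  omega

end Pool.Agent.K4H55.BD
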